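import Pool.Agent.V8H40.BL.Defs
import Pool.Agent.V8H40.OG.Tool

/-!
# Strings, compactness, searches above a string
-/

set_option autoImplicit false

namespace Pool.Agent.V8H40.BL

open Encodable
open Pool.Agent.V8H40.OG (CP)

theorem pre_length (X : ℕ → Bool) (n : ℕ) : (pre X n).length = n := by simp [pre]

theorem pre_succ (X : ℕ → Bool) (n : ℕ) : pre X (n + 1) = pre X n ++ [X n] := by
  simp [pre, List.range_succ]

theorem pre_mono (X : ℕ → Bool) {n m : ℕ} (h : n ≤ m) : pre X n <+: pre X m := by
  induction m, h using Nat.le_induction with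
  | base => exact List.prefix_refl _
  | succ m _ ih =>
    rw [pre_succ]
    exact ih.trans (List.prefix_append _ _)

theorem pre_getD (X : ℕ → Bool) {n i : ℕ} (h : i < n) : (pre X n).getD i false = X i := by
  simp [pre, List.getD_eq_getElem?_getD, h]

theorem pre_congr {X Y : ℕ → Bool} {n : ℕ} (h : ∀ i < n, X i = Y i) : pre X n = pre Y n := by
  unfold pre
  exact List.map_congr_left fun i hi => h i (List.mem_range.1 hi)

/-- the oracle which continues a string by `false` -/
def cont (σ : List Bool) : ℕ → Bool := fun i => σ.getD i false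

theorem pre_cont (σ : List Bool) : pre (cont σ) σ.length = σ := by
  apply List.ext_getElem
  · exact pre_length _ _
  · intro i h1 h2
    simp [pre, cont, List.getD_eq_getElem?_getD, h2]

theorem prefix_cont (σ : List Bool) {n : ℕ} (h : σ.length ≤ n) : σ <+: pre (cont σ) n := by
  have := pre_mono (cont σ) h
  rwa [pre_cont] at this

theorem take_eq_of_prefix {σ τ : List Bool} (h : σ <+: τ) : τ.take σ.length = σ := by
  exact (List.prefix_iff_eq_take.1 h).symm

theorem prefix_total {σ τ ρ : List Bool} (h1 : σ <+: ρ) (h2 : τ <+: ρ)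
    (h : σ.length ≤ τ.length) : σ <+: τ := List.prefix_of_prefix_length_le h1 h2 h

/-- compactness of Cantor space -/
theorem compact {P : List Bool → Prop} (hP : ∀ σ τ, σ <+: τ → P σ → P τ)
    (h : ∀ X, ∃ n, P (pre X n)) : ∃ N, ∀ τ : List Bool, N ≤ τ.length → P τ := by
  classical
  by_contra hno
  push Not at hno
  let big : List Bool → Prop := fun σ => ∀ N, ∃ τ : List Bool, N ≤ τ.length ∧ σ <+: τ ∧ ¬ P τ
  have hstep : ∀ σ, big σ → ∃ b, big (σ ++ [b]) := by
    intro σ hσ
    by_contra hb
    push Not at hb
    have h0 := hb false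
    have h1 := hb true
    simp only [big, not_forall] at h0 h1
    obtain ⟨N0, h0⟩ := h0
    obtain ⟨N1, h1⟩ := h1
    obtain ⟨τ, hτ1, hτ2, hτ3⟩ := hσ (max (max N0 N1) (σ.length + 1))
    obtain ⟨ρ, rfl⟩ := hτ2
    cases ρ with
    | nil => simp at hτ1
    | cons b ρ =>
      have hpre : σ ++ [b] <+: σ ++ b :: ρ := ⟨ρ, by simp⟩
      cases b
      · exact h0 ⟨_, (le_max_left _ _).trans ((le_max_left _ _).trans hτ1), hpre, hτ3⟩
      · exact h1 ⟨_, (le_max_right _ _).trans ((le_max_left _ _).trans hτ1), hpre, hτ3⟩
  have hroot : big [] := fun N => by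
    obtain ⟨τ, h1, h2⟩ := hno N
    exact ⟨τ, h1, List.nil_prefix, h2⟩
  choose f hf using hstep
  let S : ℕ → {σ // big σ} := fun n =>
    Nat.rec ⟨[], hroot⟩ (fun _ p => ⟨p.1 ++ [f p.1 p.2], hf p.1 p.2⟩) n
  let X : ℕ → Bool := fun n => f (S n).1 (S n).2
  have hS : ∀ n, (S n).1 = pre X n := by
    intro n
    induction n with
    | zero => simp [S, pre]
    | succ n ih =>
      rw [pre_succ, ← ih]
  obtain ⟨n, hn⟩ := h X
  rw [← hS] at hn
  obtain ⟨τ, _, h2, h3⟩ := (S n).2 0
  exact h3 (hP _ _ h2 hn)

/-- all strings of a given length -/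
def strs : ℕ → List (List Bool)
  | 0 => [[]]
  | n + 1 => (strs n).map (List.cons false) ++ (strs n).map (List.cons true)

theorem mem_strs {n : ℕ} {σ : List Bool} : σ ∈ strs n ↔ σ.length = n := by
  induction n generalizing σ with
  | zero => simp [strs]
  | succ n ih =>
    simp only [strs, List.mem_append, List.mem_map]
    constructor
    · rintro (⟨a, ha, rfl⟩ | ⟨a, ha, rfl⟩) <;> simp [ih.1 ha]
    · intro h
      cases σ with
      | nil => simp at h
      | cons b σ =>
        have h1 : σ ∈ strs n := ih.2 (by simpa using h)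
        cases b
        · exact Or.inl ⟨σ, h1, rfl⟩
        · exact Or.inr ⟨σ, h1, rfl⟩

theorem strs_primrec : Primrec strs := by
  have h1 : Primrec₂ fun (_ : ℕ) (L : List (List Bool)) =>
      L.map (List.cons false) ++ L.map (List.cons true) := by
    refine Primrec.list_append.comp ?_ ?_
    · exact Primrec.list_map Primrec.snd
        (Primrec.list_cons.comp (Primrec.const false) Primrec.snd)
    · exact Primrec.list_map Primrec.snd
        (Primrec.list_cons.comp (Primrec.const true) Primrec.snd)
  refine (Primrec.nat_rec₁ [[]] h1).of_eq fun n => ?_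
  induction n with
  | zero => rfl
  | succ n ih => simp only [strs, ← ih]

section tools

variable {α β : Type*} [Primcodable α] [Primcodable β]

theorem CP.lall {L : α → List β} {p : α → β → Prop} (hL : Computable L)
    (hp : CP fun b : α × β => p b.1 b.2) : CP fun a => ∀ i ∈ L a, p a i := by
  obtain ⟨f, hf, hfp⟩ := hp
  have h1 : Computable₂ fun (a : α) (i : β) => f (a, i) := hf
  refine ⟨_, Pool.Agent.H166R3.AT.c_lall hL h1, fun a => ?_⟩
  rw [Pool.Agent.H166R3.AT.lall_iff]
  exact forall₂_congr fun i _ => hfp (a, i)

/-- a function with a decidable graph is computable -/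
theorem computable_of_graph {f : α → β} (h : CP fun x : α × β => f x.1 = x.2) :
    Computable f := by
  obtain ⟨g, hg, hgR⟩ := CP.search (R := fun a b => f a = b) h fun a => ⟨_, rfl⟩
  exact hg.of_eq fun a => (hgR a).symm

/-- a function with a decidable sufficient relation is computable -/
theorem computable_of_rel {f : α → β} {R : α → β → Prop} (h : CP fun x : α × β => R x.1 x.2)
    (h1 : ∀ a, ∃ b, R a b) (h2 : ∀ a b, R a b → f a = b) : Computable f := by
  obtain ⟨g, hg, hgR⟩ := CP.search h h1
  exact hg.of_eq fun a => (h2 _ _ (hgR a)).symm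

theorem CP.pre {σ τ : α → List Bool} (hσ : Computable σ) (hτ : Computable τ) :
    CP fun a => σ a <+: τ a := by
  have h1 : CP fun a => (τ a).take (σ a).length = σ a := by
    refine CP.eq ?_ hσ
    have : Computable fun a => (τ a).take (σ a).length := by
      refine computable_of_rel (R := fun a L => L.length = min (σ a).length (τ a).length ∧
        ∀ i < L.length, L.getD i false = (τ a).getD i false) ?_ ?_ ?_
      · refine CP.and ?_ ?_
        · refine CP.eq (Computable.list_length.comp Computable.snd) ?_
          exact Primrec.nat_min.to_comp.comp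
            (Computable.list_length.comp (hσ.comp Computable.fst))
            (Computable.list_length.comp (hτ.comp Computable.fst))
        · refine CP.ball (Computable.list_length.comp Computable.snd) ?_
          have hgd : Computable₂ fun (L : List Bool) (i : ℕ) => L.getD i false :=
            (Primrec.list_getD false).to_comp
          exact CP.eq (hgd.comp (Computable.snd.comp Computable.fst) Computable.snd)
            (hgd.comp (hτ.comp (Computable.fst.comp Computable.fst)) Computable.snd)
      · intro a
        refine ⟨(τ a).take (σ a).length, by simp, ?_⟩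
        intro i hi
        simp only [List.length_take, lt_min_iff] at hi
        simp [List.getD_eq_getElem?_getD, hi.1]
      · rintro a L ⟨h3, h4⟩
        apply List.ext_getElem
        · simp [h3]
        · intro i h5 h6
          have h7 := h4 i h6
          have h8 : i < (τ a).length := by
            simp only [List.length_take, lt_min_iff] at h5
            exact h5.2
          simp only [List.getD_eq_getElem?_getD, List.getElem?_eq_getElem h6,
            List.getElem?_eq_getElem h8, Option.getD_some] at h7
          simp [h7]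
    exact this
  refine h1.of_iff fun a => ?_
  rw [List.prefix_iff_eq_take, eq_comm]

/-- Searches above a string. -/
theorem ext_search {W Dc : α → List Bool → Prop} (hW : CP fun x : α × List Bool => W x.1 x.2)
    (hD : CP fun x : α × List Bool => Dc x.1 x.2)
    (hDt : ∀ a, ∃ N, ∀ τ : List Bool, N ≤ τ.length → Dc a τ)
    (hWm : ∀ a σ τ, σ <+: τ → W a σ → W a τ)
    (hDW : ∀ a σ τ, σ <+: τ → Dc a σ → W a τ → W a σ) :
    ∃ F : α × List Bool → Option (List Bool), Computable F ∧
      (∀ a σ, F (a, σ) = none ↔ ¬ ∃ τ, σ <+: τ ∧ W a τ) ∧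
      ∀ a σ τ, F (a, σ) = some τ → σ <+: τ ∧ W a τ ∧
        ∀ ρ, σ <+: ρ → W a ρ → encode τ ≤ encode ρ := by
  classical
  -- `m` is the code of a witness
  let C : α × List Bool → ℕ → Prop := fun q m =>
    q.2 <+: ((decode m : Option (List Bool)).getD []) ∧
      W q.1 ((decode m : Option (List Bool)).getD []) ∧
      encode ((decode m : Option (List Bool)).getD []) = m
  have hC : CP fun x : (α × List Bool) × ℕ => C x.1 x.2 := by
    have hd : Computable fun x : (α × List Bool) × ℕ =>
        ((decode x.2 : Option (List Bool)).getD []) :=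
      Computable.option_getD (Computable.decode.comp Computable.snd) (Computable.const [])
    refine CP.and (CP.pre (Computable.snd.comp Computable.fst) hd) (CP.and ?_ ?_)
    · exact hW.comp (Computable.pair (Computable.fst.comp Computable.fst) hd)
    · exact CP.eq (Computable.encode.comp hd) Computable.snd
  -- level `m` shows that there is no witness
  let Nw : α × List Bool → ℕ → Prop := fun q m =>
    q.2.length ≤ m ∧ ∀ τ ∈ strs m, q.2 <+: τ → Dc q.1 τ ∧ ¬ W q.1 τ
  have hNw : CP fun x : (α × List Bool) × ℕ => Nw x.1 x.2 := by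
    refine CP.and (CP.le (Computable.list_length.comp (Computable.snd.comp Computable.fst))
      Computable.snd) ?_
    refine CP.lall (strs_primrec.to_comp.comp Computable.snd) ?_
    refine CP.imp (CP.pre (Computable.snd.comp (Computable.fst.comp Computable.fst))
      Computable.snd) ?_
    have hc : Computable fun x : ((α × List Bool) × ℕ) × List Bool => (x.1.1.1, x.2) :=
      Computable.pair (Computable.fst.comp (Computable.fst.comp Computable.fst)) Computable.snd
    exact (hD.comp hc).and (hW.comp hc).not
  have hNw2 : ∀ q m, Nw q m → ∀ τ, q.2 <+: τ → ¬ W q.1 τ := by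
    rintro ⟨a, σ⟩ m ⟨h1, h2⟩ τ h3 h4
    dsimp only at h1 h2 h3 h4
    -- extend `τ` to length at least `m`
    set ρ := Pool.Agent.V8H40.BL.pre (cont τ) (max m τ.length) with hρ
    have h5 : τ <+: ρ := prefix_cont τ (le_max_right _ _)
    have h6 : W a ρ := hWm _ _ _ h5 h4
    have h7 : ρ.take m <+: ρ := List.take_prefix _ _
    have h8 : (ρ.take m).length = m := by
      rw [List.length_take, hρ, pre_length]
      simp
    have h9 : σ <+: ρ.take m := prefix_total (h3.trans h5) h7 (by rw [h8]; exact h1)
    obtain ⟨h10, h11⟩ := h2 _ (mem_strs.2 h8) h9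
    exact h11 (hDW _ _ _ h7 h10 h6)
  have hR : CP fun x : (α × List Bool) × ℕ =>
      (C x.1 x.2 ∧ ∀ m < x.2, ¬ C x.1 m) ∨ Nw x.1 x.2 := by
    refine CP.or (hC.and (CP.ball Computable.snd ?_)) hNw
    exact (hC.comp (Computable.pair (Computable.fst.comp Computable.fst) Computable.snd)).not
  obtain ⟨g, hg, hgR⟩ := CP.search (R := fun (q : α × List Bool) (m : ℕ) =>
      (C q m ∧ ∀ m' < m, ¬ C q m') ∨ Nw q m) hR (fun q => by
    by_cases h : ∃ m, C q m
    · exact ⟨Nat.find h, Or.inl ⟨Nat.find_spec h, fun m hm => Nat.find_min h hm⟩⟩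
    · obtain ⟨N, hN⟩ := hDt q.1
      refine ⟨max N q.2.length, Or.inr ⟨le_max_right _ _, ?_⟩⟩
      intro τ hτ hpre
      rw [mem_strs] at hτ
      refine ⟨hN _ (by rw [hτ]; exact le_max_left _ _), fun hw => h ⟨encode τ, ?_⟩⟩
      simp only [C, encodek, Option.getD_some]
      exact ⟨hpre, hw, trivial⟩)
  refine ⟨fun q => if C q (g q) then some ((decode (g q) : Option (List Bool)).getD []) else none,
    ?_, ?_, ?_⟩
  · refine Pool.Agent.R557.CK.c_ite' ?_ ?_ (Computable.const none)
    · exact (hC.comp (Computable.pair Computable.id hg)).dec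
    · exact Computable.option_some.comp
        (Computable.option_getD (Computable.decode.comp hg) (Computable.const []))
  · intro a σ
    dsimp only
    split_ifs with h
    · simp only [reduceCtorEq, false_iff, not_not]
      exact ⟨_, h.1, h.2.1⟩
    · simp only [true_iff]
      rintro ⟨τ, h1, h2⟩
      rcases hgR (a, σ) with h3 | h3
      · exact h h3.1
      · exact hNw2 _ _ h3 τ h1 h2
  · intro a σ τ
    dsimp only
    split_ifs with h
    · intro h1
      have h2 : (decode (g (a, σ)) : Option (List Bool)).getD [] = τ := Option.some.inj h1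
      have h3 : encode τ = g (a, σ) := by rw [← h2]; exact h.2.2
      refine ⟨by rw [← h2]; exact h.1, by rw [← h2]; exact h.2.1, ?_⟩
      intro ρ h4 h5
      by_contra hlt
      push Not at hlt
      rcases hgR (a, σ) with h6 | h6
      · refine h6.2 (encode ρ) (by rw [← h3]; exact hlt) ?_
        simp only [C, encodek, Option.getD_some]
        exact ⟨h4, h5, trivial⟩
      · exact hNw2 _ _ h6 ρ h4 h5
    · intro h1
      cases h1

end tools

end Pool.Agent.V8H40.BL
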