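import Pool.Agent.V8H40.BL.Pref2

/-!
# The construction relative to a cost function
-/

set_option autoImplicit false

namespace Pool.Agent.V8H40.BL

open Encodable
open Pool.Agent.V8H40.OG (CP)

section construction

variable (p : ℕ → ℕ → List Bool → Option Bool) (s : ℕ → ℕ)

/-- budgets -/
def bud (c : ℕ → ℕ → ℕ → ℕ) (l y : ℕ) : ℕ :=
  ∑ z ∈ Finset.range (y + 1),
    if l < z then z + s z + ∑ D ∈ Finset.range (z + 1), c (l + 1) D z else 0

theorem bud_mono (c : ℕ → ℕ → ℕ → ℕ) (l : ℕ) : Monotone (bud s c l) := by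
  intro y y' h
  unfold bud
  exact Finset.sum_le_sum_of_subset (Finset.range_mono (by omega))

theorem le_bud (c : ℕ → ℕ → ℕ → ℕ) {l y : ℕ} (h : l < y) :
    y + s y + ∑ D ∈ Finset.range (y + 1), c (l + 1) D y ≤ bud s c l y := by
  unfold bud
  have h1 := Finset.single_le_sum (f := fun z => if l < z then z + s z +
    ∑ D ∈ Finset.range (z + 1), c (l + 1) D z else 0) (fun i _ => Nat.zero_le _)
    (Finset.mem_range.2 (Nat.lt_succ_self y))
  simp only [if_pos h] at h1
  exact h1

theorem cost_le_bud (c : ℕ → ℕ → ℕ → ℕ) {l y D : ℕ} (h : l < y) (hD : D ≤ y) :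
    c (l + 1) D y ≤ bud s c l y := by
  refine le_trans ?_ (le_bud s c h)
  have h1 : c (l + 1) D y ≤ ∑ D ∈ Finset.range (y + 1), c (l + 1) D y :=
    Finset.single_le_sum (f := fun D => c (l + 1) D y) (fun i _ => Nat.zero_le _)
      (Finset.mem_range.2 (Nat.lt_succ_of_le hD))
  omega

/-- the leading preference is `b` -/
def LR (c : ℕ → ℕ → ℕ → ℕ) (u : ℕ) (σ : List Bool) (b : Bool) : Prop :=
  (∃ l < σ.length, u ≤ l ∧ p l (bud s c l σ.length) σ = some b ∧
    ∀ l' < l, u ≤ l' → p l' (bud s c l' σ.length) σ = none) ∨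
  (b = false ∧ ∀ l < σ.length, u ≤ l → p l (bud s c l σ.length) σ = none)

theorem LR_exists (c : ℕ → ℕ → ℕ → ℕ) (u : ℕ) (σ : List Bool) : ∃ b, LR p s c u σ b := by
  classical
  by_cases h : ∃ l, l < σ.length ∧ u ≤ l ∧ p l (bud s c l σ.length) σ ≠ none
  · obtain ⟨b, hb⟩ := Option.ne_none_iff_exists'.1 (Nat.find_spec h).2.2
    refine ⟨b, Or.inl ⟨Nat.find h, (Nat.find_spec h).1, (Nat.find_spec h).2.1, hb, ?_⟩⟩
    intro l' hl' hu
    by_contra hne
    exact Nat.find_min h hl' ⟨hl'.trans (Nat.find_spec h).1, hu, hne⟩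
  · push Not at h
    exact ⟨false, Or.inr ⟨rfl, h⟩⟩

theorem LR_unique {c : ℕ → ℕ → ℕ → ℕ} {u : ℕ} {σ : List Bool} {b b' : Bool}
    (h : LR p s c u σ b) (h' : LR p s c u σ b') : b = b' := by
  rcases h with ⟨l, h1, h2, h3, h4⟩ | ⟨rfl, h1⟩ <;>
    rcases h' with ⟨l', h1', h2', h3', h4'⟩ | ⟨rfl, h1'⟩
  · rcases lt_trichotomy l l' with h | rfl | h
    · rw [h4' l h h2] at h3; cases h3
    · rw [h3] at h3'
      exact Option.some.inj h3'
    · rw [h4 l' h h2'] at h3'; cases h3'
  · rw [h1' l h1 h2] at h3; cases h3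
  · rw [h1 l' h1' h2'] at h3'; cases h3'
  · rfl

/-- the leading preference -/
noncomputable def lead (c : ℕ → ℕ → ℕ → ℕ) (u : ℕ) (σ : List Bool) : Bool :=
  (LR_exists p s c u σ).choose

theorem lead_rel (c : ℕ → ℕ → ℕ → ℕ) (u : ℕ) (σ : List Bool) :
    LR p s c u σ (lead p s c u σ) := (LR_exists p s c u σ).choose_spec

theorem lead_eq {c : ℕ → ℕ → ℕ → ℕ} {u : ℕ} {σ : List Bool} {b : Bool}
    (h : LR p s c u σ b) : lead p s c u σ = b := LR_unique p s (lead_rel p s c u σ) h

theorem bud_congr {c c' : ℕ → ℕ → ℕ → ℕ} {u l y : ℕ} (hl : u ≤ l)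
    (h : ∀ u' D z, u < u' → u' ≤ z → z ≤ y → D ≤ z → c u' D z = c' u' D z) :
    bud s c l y = bud s c' l y := by
  unfold bud
  refine Finset.sum_congr rfl fun z hz => ?_
  rw [Finset.mem_range] at hz
  split_ifs with h1
  · congr 1
    refine Finset.sum_congr rfl fun D hD => ?_
    rw [Finset.mem_range] at hD
    exact h _ _ _ (by omega) (by omega) (by omega) (by omega)
  · rfl

theorem lead_congr {c c' : ℕ → ℕ → ℕ → ℕ} {u : ℕ} {σ : List Bool}
    (h : ∀ u' D z, u < u' → u' ≤ z → z ≤ σ.length → D ≤ z → c u' D z = c' u' D z) :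
    lead p s c u σ = lead p s c' u σ := by
  apply lead_eq
  have h1 : ∀ l, u ≤ l → bud s c l σ.length = bud s c' l σ.length := fun l hl =>
    bud_congr s hl h
  rcases lead_rel p s c' u σ with ⟨l, h2, h3, h4, h5⟩ | ⟨h2, h3⟩
  · refine Or.inl ⟨l, h2, h3, by rw [h1 l h3]; exact h4, fun l' hl' hu => ?_⟩
    rw [h1 l' hu]
    exact h5 l' hl' hu
  · refine Or.inr ⟨h2, fun l hl hu => ?_⟩
    rw [h1 l hu]
    exact h3 l hl hu

/-- the next value -/
noncomputable def nxt (c : ℕ → ℕ → ℕ → ℕ) (u : ℕ) (D σ : List Bool) : Bool :=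
  if σ.length < D.length then D.getD σ.length false else lead p s c u σ

/-- the history -/
noncomputable def hist (c : ℕ → ℕ → ℕ → ℕ) (u : ℕ) (D : List Bool) : ℕ → List Bool
  | 0 => []
  | y + 1 => hist c u D y ++ [nxt p s c u D (hist c u D y)]

/-- the constructed set -/
noncomputable def Bs (c : ℕ → ℕ → ℕ → ℕ) (u : ℕ) (D : List Bool) (y : ℕ) : Bool :=
  nxt p s c u D (hist p s c u D y)

theorem hist_eq (c : ℕ → ℕ → ℕ → ℕ) (u : ℕ) (D : List Bool) (y : ℕ) :
    hist p s c u D y = pre (Bs p s c u D) y := by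
  induction y with
  | zero => rfl
  | succ y ih => rw [pre_succ, ← ih]; rfl

theorem Bs_eq (c : ℕ → ℕ → ℕ → ℕ) (u : ℕ) (D : List Bool) (y : ℕ) :
    Bs p s c u D y = if y < D.length then D.getD y false
      else lead p s c u (pre (Bs p s c u D) y) := by
  conv_lhs => unfold Bs nxt
  rw [hist_eq, pre_length]

theorem hist_congr {c c' : ℕ → ℕ → ℕ → ℕ} {u : ℕ} {D : List Bool} {y : ℕ}
    (h : ∀ u' D z, u < u' → u' ≤ z → z < y → D ≤ z → c u' D z = c' u' D z) :
    hist p s c u D y = hist p s c' u D y := by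
  induction y with
  | zero => rfl
  | succ y ih =>
    have h1 := ih fun u' D z h1 h2 h3 h4 => h u' D z h1 h2 (by omega) h4
    simp only [hist, ← h1]
    congr 2
    unfold nxt
    split_ifs
    · rfl
    · apply lead_congr
      intro u' D z h2 h3 h4 h5
      rw [hist_eq, pre_length] at h4
      exact h u' D z h2 h3 (by omega) h5

theorem Bs_congr {c c' : ℕ → ℕ → ℕ → ℕ} {u : ℕ} {D : List Bool} {y : ℕ}
    (h : ∀ u' D z, u < u' → u' ≤ z → z ≤ y → D ≤ z → c u' D z = c' u' D z) :
    Bs p s c u D y = Bs p s c' u D y := by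
  have h1 : hist p s c u D (y + 1) = hist p s c' u D (y + 1) := hist_congr p s
    fun u' D z h1 h2 h3 h4 => h u' D z h1 h2 (by omega) h4
  rw [hist_eq, hist_eq] at h1
  have h2 := pre_getD (Bs p s c u D) (Nat.lt_succ_self y)
  have h3 := pre_getD (Bs p s c' u D) (Nat.lt_succ_self y)
  rw [← h2, ← h3, h1]

section comp

variable {p s} {α : Type*} [Primcodable α] {c : α → ℕ → ℕ → ℕ → ℕ}
  (hp : Computable fun q : ℕ × ℕ × List Bool => p q.1 q.2.1 q.2.2) (hs : Computable s)
  (hc : Computable fun q : α × ℕ × ℕ × ℕ => c q.1 q.2.1 q.2.2.1 q.2.2.2)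

include hs hc

theorem c_bud : Computable fun q : α × ℕ × ℕ => bud s (c q.1) q.2.1 q.2.2 := by
  unfold bud
  refine Pool.Agent.H166R3.AT.c_sum (n := fun q : α × ℕ × ℕ => q.2.2 + 1)
    (f := fun q z => if q.2.1 < z then z + s z +
      ∑ D ∈ Finset.range (z + 1), c q.1 (q.2.1 + 1) D z else 0) ?_ ?_
  · exact Computable.succ.comp (Computable.snd.comp Computable.snd)
  · have h1 : Computable fun x : (α × ℕ × ℕ) × ℕ => decide (x.1.2.1 < x.2) :=
      Pool.Agent.H166R3.AT.c_lt (Computable.fst.comp (Computable.snd.comp Computable.fst))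
        Computable.snd
    have h2 : Computable fun x : (α × ℕ × ℕ) × ℕ => x.2 + s x.2 :=
      Pool.Agent.H166R3.AT.c_add Computable.snd (hs.comp Computable.snd)
    have h3 : Computable₂ fun (x : (α × ℕ × ℕ) × ℕ) (D : ℕ) =>
        c x.1.1 (x.1.2.1 + 1) D x.2 := by
      have h4 : Computable fun w : ((α × ℕ × ℕ) × ℕ) × ℕ =>
          ((w.1.1.1, w.1.1.2.1 + 1, w.2, w.1.2) : α × ℕ × ℕ × ℕ) :=
        Computable.pair (Computable.fst.comp (Computable.fst.comp Computable.fst))
          (Computable.pair (Computable.succ.comp (Computable.fst.comp (Computable.snd.comp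
            (Computable.fst.comp Computable.fst)))) (Computable.pair Computable.snd
              (Computable.snd.comp Computable.fst)))
      have h5 := hc.comp h4
      exact h5
    have h4 : Computable fun x : (α × ℕ × ℕ) × ℕ =>
        ∑ D ∈ Finset.range (x.2 + 1), c x.1.1 (x.1.2.1 + 1) D x.2 :=
      Pool.Agent.H166R3.AT.c_sum (Computable.succ.comp Computable.snd) h3
    have h5 := Pool.Agent.R557.CK.c_ite' h1 (Pool.Agent.H166R3.AT.c_add h2 h4)
      (Computable.const 0)
    exact h5

include hp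

theorem c_lead : Computable fun q : α × ℕ × List Bool => lead p s (c q.1) q.2.1 q.2.2 := by
  refine computable_of_rel (R := fun (q : α × ℕ × List Bool) b => LR p s (c q.1) q.2.1 q.2.2 b)
    ?_ (fun q => LR_exists p s _ _ _) (fun q b h => lead_eq p s h)
  -- the preference of level `l`
  have hpl : ∀ {γ : Type _} [Primcodable γ] {a : γ → α} {l : γ → ℕ} {σ : γ → List Bool},
      Computable a → Computable l → Computable σ →
      Computable fun x => p (l x) (bud s (c (a x)) (l x) (σ x).length) (σ x) := by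
    intro γ _ a l σ ha hl hσ
    have h1 : Computable fun x => ((a x, l x, (σ x).length) : α × ℕ × ℕ) :=
      ha.pair (hl.pair (Computable.list_length.comp hσ))
    have h2 := (c_bud hs hc).comp h1
    have h3 : Computable fun x => ((l x, bud s (c (a x)) (l x) (σ x).length, σ x) :
        ℕ × ℕ × List Bool) := hl.pair (h2.pair hσ)
    have h4 := hp.comp h3
    exact h4
  have h1 : CP fun x : ((α × ℕ × List Bool) × Bool) × ℕ =>
      x.1.1.2.1 ≤ x.2 ∧ p x.2 (bud s (c x.1.1.1) x.2 x.1.1.2.2.length) x.1.1.2.2 = some x.1.2 ∧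
        ∀ l' < x.2, x.1.1.2.1 ≤ l' → p l' (bud s (c x.1.1.1) l' x.1.1.2.2.length) x.1.1.2.2
          = none := by
    refine CP.and (CP.le (Computable.fst.comp (Computable.snd.comp (Computable.fst.comp
      Computable.fst))) Computable.snd) (CP.and ?_ ?_)
    · refine CP.eq ?_ (Computable.option_some.comp (Computable.snd.comp Computable.fst))
      exact hpl (Computable.fst.comp (Computable.fst.comp Computable.fst)) Computable.snd
        (Computable.snd.comp (Computable.snd.comp (Computable.fst.comp Computable.fst)))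
    · refine CP.ball Computable.snd (CP.imp ?_ (CP.eq ?_ (Computable.const none)))
      · exact CP.le (Computable.fst.comp (Computable.snd.comp (Computable.fst.comp
          (Computable.fst.comp Computable.fst)))) Computable.snd
      · exact hpl (Computable.fst.comp (Computable.fst.comp (Computable.fst.comp Computable.fst)))
          Computable.snd
          (Computable.snd.comp (Computable.snd.comp (Computable.fst.comp (Computable.fst.comp
            Computable.fst))))
  have h2 : CP fun x : ((α × ℕ × List Bool) × Bool) × ℕ =>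
      x.1.1.2.1 ≤ x.2 → p x.2 (bud s (c x.1.1.1) x.2 x.1.1.2.2.length) x.1.1.2.2 = none := by
    refine CP.imp (CP.le (Computable.fst.comp (Computable.snd.comp (Computable.fst.comp
      Computable.fst))) Computable.snd) (CP.eq ?_ (Computable.const none))
    exact hpl (Computable.fst.comp (Computable.fst.comp Computable.fst)) Computable.snd
        (Computable.snd.comp (Computable.snd.comp (Computable.fst.comp Computable.fst)))
  have hlen : Computable fun x : (α × ℕ × List Bool) × Bool => x.1.2.2.length :=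
    Computable.list_length.comp (Computable.snd.comp (Computable.snd.comp Computable.fst))
  have h3 := CP.bex (n := fun x : (α × ℕ × List Bool) × Bool => x.1.2.2.length)
    (p := fun x l => x.1.2.1 ≤ l ∧ p l (bud s (c x.1.1) l x.1.2.2.length) x.1.2.2 = some x.2 ∧
        ∀ l' < l, x.1.2.1 ≤ l' → p l' (bud s (c x.1.1) l' x.1.2.2.length) x.1.2.2 = none)
    hlen h1
  have h4 := CP.ball (n := fun x : (α × ℕ × List Bool) × Bool => x.1.2.2.length)
    (p := fun x l => x.1.2.1 ≤ l → p l (bud s (c x.1.1) l x.1.2.2.length) x.1.2.2 = none)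
    hlen h2
  have h5 : CP fun x : (α × ℕ × List Bool) × Bool => x.2 = false :=
    CP.eq Computable.snd (Computable.const false)
  exact (h3.or (h5.and h4)).of_iff fun x => Iff.rfl

theorem c_nxt : Computable fun q : (α × ℕ × List Bool) × List Bool =>
    nxt p s (c q.1.1) q.1.2.1 q.1.2.2 q.2 := by
  unfold nxt
  have hσ : Computable fun q : (α × ℕ × List Bool) × List Bool => q.2.length :=
    Computable.list_length.comp Computable.snd
  have hD : Computable fun q : (α × ℕ × List Bool) × List Bool => q.1.2.2 :=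
    Computable.snd.comp (Computable.snd.comp Computable.fst)
  have h1 : Computable fun q : (α × ℕ × List Bool) × List Bool =>
      decide (q.2.length < q.1.2.2.length) :=
    Pool.Agent.H166R3.AT.c_lt hσ (Computable.list_length.comp hD)
  have h2 : Computable fun q : (α × ℕ × List Bool) × List Bool =>
      ((q.1.1, q.1.2.1, q.2) : α × ℕ × List Bool) :=
    Computable.pair (Computable.fst.comp Computable.fst)
      (Computable.pair (Computable.fst.comp (Computable.snd.comp Computable.fst)) Computable.snd)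
  have h3 := (c_lead hp hs hc).comp h2
  have h4 := Pool.Agent.R557.CK.c_ite' h1 (c_getD hD hσ) h3
  exact h4

theorem c_hist : Computable fun q : (α × ℕ × List Bool) × ℕ =>
    hist p s (c q.1.1) q.1.2.1 q.1.2.2 q.2 := by
  have h1 : Computable fun x : ((α × ℕ × List Bool) × ℕ) × ℕ × List Bool =>
      ((x.1.1, x.2.2) : (α × ℕ × List Bool) × List Bool) :=
    Computable.pair (Computable.fst.comp Computable.fst) (Computable.snd.comp Computable.snd)
  have h2 := (c_nxt hp hs hc).comp h1
  have h3 : Computable₂ fun (q : (α × ℕ × List Bool) × ℕ) (w : ℕ × List Bool) =>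
      w.2 ++ [nxt p s (c q.1.1) q.1.2.1 q.1.2.2 w.2] := by
    have h4 : Computable fun x : ((α × ℕ × List Bool) × ℕ) × ℕ × List Bool => x.2.2 :=
      Computable.snd.comp Computable.snd
    have h5 := Computable.list_append.comp h4 (Computable.list_cons.comp h2
      (Computable.const ([] : List Bool)))
    exact h5
  have h4 := Computable.nat_rec (f := fun q : (α × ℕ × List Bool) × ℕ => q.2)
    (g := fun _ => ([] : List Bool)) Computable.snd (Computable.const _) h3
  refine h4.of_eq fun q => ?_
  obtain ⟨q, n⟩ := q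
  dsimp only
  induction n with
  | zero => rfl
  | succ n ih => simp only [hist, ← ih]

theorem c_Bs : Computable fun q : (α × ℕ × List Bool) × ℕ =>
    Bs p s (c q.1.1) q.1.2.1 q.1.2.2 q.2 := by
  have h1 := (Computable.fst (α := α × ℕ × List Bool) (β := ℕ)).pair (c_hist hp hs hc)
  have h2 := (c_nxt hp hs hc).comp h1
  exact h2

end comp

end construction

end Pool.Agent.V8H40.BL
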