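import Pool.Agent.V8H40.BL.Base

/-!
# Approximations of a relative Blum measure
-/

set_option autoImplicit false

namespace Pool.Agent.V8H40.BL

open Encodable
open Pool.Agent.V8H40.OG (CP)

/-- approximations of a Blum measure -/
structure BM where
  U : List Bool → ℕ → ℕ → Option ℕ
  d : List Bool → ℕ → ℕ → ℕ → Option Bool
  hU : Computable fun q : List Bool × ℕ × ℕ => U q.1 q.2.1 q.2.2
  hd : Computable fun q : List Bool × ℕ × ℕ × ℕ => d q.1 q.2.1 q.2.2.1 q.2.2.2
  mU : ∀ σ τ i x y, σ <+: τ → U σ i x = some y → U τ i x = some y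
  md : ∀ σ τ i x t b, σ <+: τ → d σ i x t = some b → d τ i x t = some b
  dtot : ∀ X i x t, ∃ n b, d (pre X n) i x t = some b
  uniq : ∀ X i x t t' n n', d (pre X n) i x t = some true → d (pre X n') i x t' = some true →
    t = t'
  dom1 : ∀ X i x t n, d (pre X n) i x t = some true → ∃ m v, U (pre X m) i x = some v
  dom2 : ∀ X i x v n, U (pre X n) i x = some v → ∃ m t, d (pre X m) i x t = some true
  univ : ∀ f : List Bool → ℕ → ℕ → Option ℕ,
    Computable (fun q : List Bool × ℕ × ℕ => f q.1 q.2.1 q.2.2) →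
    (∀ σ τ i x y, σ <+: τ → f σ i x = some y → f τ i x = some y) →
    ∃ S : ℕ → ℕ, Computable S ∧ ∀ X i x y,
      (∃ n, U (pre X n) (S i) x = some y) ↔ ∃ n, f (pre X n) i x = some y

namespace BM

variable (M : BM)

/-- value of a program -/
def Val (X : ℕ → Bool) (i x v : ℕ) : Prop := ∃ n, M.U (pre X n) i x = some v

/-- cost of a program -/
def Cost (X : ℕ → Bool) (i x t : ℕ) : Prop := ∃ n, M.d (pre X n) i x t = some true

theorem val_unique {X : ℕ → Bool} {i x v w : ℕ} (hv : M.Val X i x v) (hw : M.Val X i x w) :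
    v = w := by
  obtain ⟨n, hn⟩ := hv
  obtain ⟨m, hm⟩ := hw
  have h1 := M.mU _ _ _ _ _ (pre_mono X (le_max_left n m)) hn
  have h2 := M.mU _ _ _ _ _ (pre_mono X (le_max_right n m)) hm
  rw [h1] at h2
  exact Option.some.inj h2

theorem cost_unique {X : ℕ → Bool} {i x v w : ℕ} (hv : M.Cost X i x v) (hw : M.Cost X i x w) :
    v = w := by
  obtain ⟨n, hn⟩ := hv
  obtain ⟨m, hm⟩ := hw
  exact M.uniq _ _ _ _ _ _ _ hn hm

theorem val_of_cost {X : ℕ → Bool} {i x t : ℕ} (h : M.Cost X i x t) : ∃ v, M.Val X i x v := by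
  obtain ⟨n, hn⟩ := h
  obtain ⟨m, v, hv⟩ := M.dom1 _ _ _ _ _ hn
  exact ⟨v, m, hv⟩

theorem cost_of_val {X : ℕ → Bool} {i x v : ℕ} (h : M.Val X i x v) : ∃ t, M.Cost X i x t := by
  obtain ⟨n, hn⟩ := h
  obtain ⟨m, v, hv⟩ := M.dom2 _ _ _ _ _ hn
  exact ⟨v, m, hv⟩

theorem not_cost {X : ℕ → Bool} {i x t n : ℕ} (h : M.d (pre X n) i x t = some false) :
    ¬ M.Cost X i x t := by
  rintro ⟨m, hm⟩
  have h1 := M.md _ _ _ _ _ _ (pre_mono X (le_max_left n m)) h
  have h2 := M.md _ _ _ _ _ _ (pre_mono X (le_max_right n m)) hm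
  rw [h1] at h2
  cases h2

section comp

variable {α : Type*} [Primcodable α]

theorem cU {σ : α → List Bool} {i x : α → ℕ} (hσ : Computable σ) (hi : Computable i)
    (hx : Computable x) : Computable fun a => M.U (σ a) (i a) (x a) :=
  M.hU.comp (hσ.pair (hi.pair hx))

theorem cd {σ : α → List Bool} {i x t : α → ℕ} (hσ : Computable σ) (hi : Computable i)
    (hx : Computable x) (ht : Computable t) : Computable fun a => M.d (σ a) (i a) (x a) (t a) :=
  M.hd.comp (hσ.pair (hi.pair (hx.pair ht)))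

theorem c_range_map {n : α → ℕ} {f : α → ℕ → Bool} (hn : Computable n) (hf : Computable₂ f) :
    Computable fun a => (List.range (n a)).map (f a) := by
  refine computable_of_rel (R := fun a L => L.length = n a ∧
    ∀ i < L.length, L.getD i false = f a i) ?_ ?_ ?_
  · refine CP.and ?_ ?_
    · exact CP.eq (Computable.list_length.comp Computable.snd) (hn.comp Computable.fst)
    · refine CP.ball (Computable.list_length.comp Computable.snd) ?_
      have hgd : Computable₂ fun (L : List Bool) (i : ℕ) => L.getD i false :=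
        (Primrec.list_getD false).to_comp
      exact CP.eq (hgd.comp (Computable.snd.comp Computable.fst) Computable.snd)
        (hf.comp (Computable.fst.comp Computable.fst) Computable.snd)
  · intro a
    refine ⟨(List.range (n a)).map (f a), by simp, fun i hi => ?_⟩
    simp only [List.length_map, List.length_range] at hi
    simp [List.getD_eq_getElem?_getD, hi]
  · rintro a L ⟨h1, h2⟩
    apply List.ext_getElem
    · simp [h1]
    · intro i h3 h4
      have h5 := h2 i h4
      simp only [List.getD_eq_getElem?_getD, List.getElem?_eq_getElem h4, Option.getD_some] at h5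
      simp [h5]

theorem c_pre {X : ℕ → Bool} (hX : Computable X) {n : α → ℕ} (hn : Computable n) :
    Computable fun a => pre X (n a) := by
  have h1 : Computable₂ fun (_ : α) (i : ℕ) => X i := hX.comp Computable.snd
  exact c_range_map hn h1

end comp

theorem unif {P : ℕ → ℕ → Prop} (hm : ∀ j n n', n ≤ n' → P j n → P j n') (m : ℕ)
    (h : ∀ j < m, ∃ n, P j n) : ∃ n, ∀ j < m, P j n := by
  induction m with
  | zero => exact ⟨0, fun j hj => absurd hj (Nat.not_lt_zero _)⟩
  | succ m ih =>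
    obtain ⟨n, hn⟩ := ih fun j hj => h j (by omega)
    obtain ⟨n', hn'⟩ := h m (by omega)
    refine ⟨max n n', fun j hj => ?_⟩
    rcases Nat.lt_succ_iff_lt_or_eq.1 hj with h1 | rfl
    · exact hm _ _ _ (le_max_left _ _) (hn j h1)
    · exact hm _ _ _ (le_max_right _ _) hn'

theorem exists_dec (X : ℕ → Bool) (i x : ℕ) (Q : ℕ) :
    ∃ n, ∀ t < Q + 1, M.d (pre X n) i x t ≠ none ∧
      (M.d (pre X n) i x t = some true → M.U (pre X n) i x ≠ none) := by
  apply unif
  · intro t n n' hn ⟨h1, h2⟩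
    obtain ⟨b, hb⟩ := Option.ne_none_iff_exists'.1 h1
    have h3 := M.md _ _ _ _ _ _ (pre_mono X hn) hb
    refine ⟨by rw [h3]; simp, fun h4 => ?_⟩
    rw [h3] at h4
    obtain ⟨v, hv⟩ := Option.ne_none_iff_exists'.1 (h2 (hb.trans h4))
    rw [M.mU _ _ _ _ _ (pre_mono X hn) hv]
    simp
  · intro t _
    obtain ⟨n, b, hb⟩ := M.dtot X i x t
    cases b with
    | false => exact ⟨n, by simp [hb], by simp [hb]⟩
    | true =>
      obtain ⟨m, v, hv⟩ := M.dom1 _ _ _ _ _ hb
      refine ⟨max n m, ?_, ?_⟩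
      · rw [M.md _ _ _ _ _ _ (pre_mono X (le_max_left n m)) hb]
        simp
      · intro _
        rw [M.mU _ _ _ _ _ (pre_mono X (le_max_right n m)) hv]
        simp

open Classical in
/-- the value of a program if its cost is at most `Q` -/
noncomputable def rv (X : ℕ → Bool) (i x Q : ℕ) : Option ℕ :=
  if h : (∃ t < Q + 1, M.Cost X i x t) ∧ ∃ v, M.Val X i x v then some h.2.choose else none

theorem rv_eq_some {X : ℕ → Bool} {i x Q v : ℕ} :
    M.rv X i x Q = some v ↔ (∃ t < Q + 1, M.Cost X i x t) ∧ M.Val X i x v := by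
  unfold rv
  split_ifs with h
  · rw [Option.some_inj]
    constructor
    · rintro rfl
      exact ⟨h.1, h.2.choose_spec⟩
    · rintro ⟨_, h2⟩
      exact M.val_unique h.2.choose_spec h2
  · simp only [false_iff, not_and]
    intro h1 h2
    exact h ⟨h1, _, h2⟩

theorem rv_eq_none {X : ℕ → Bool} {i x Q : ℕ} :
    M.rv X i x Q = none ↔ ∀ t < Q + 1, ¬ M.Cost X i x t := by
  constructor
  · intro h t ht hc
    obtain ⟨v, hv⟩ := M.val_of_cost hc
    have := (M.rv_eq_some).2 ⟨⟨t, ht, hc⟩, hv⟩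
    rw [h] at this
    cases this
  · intro h
    by_contra hne
    obtain ⟨v, hv⟩ := Option.ne_none_iff_exists'.1 hne
    obtain ⟨⟨t, ht, hc⟩, _⟩ := M.rv_eq_some.1 hv
    exact h t ht hc

theorem rv_mono {X : ℕ → Bool} {i x Q Q' v : ℕ} (hQ : Q ≤ Q') (h : M.rv X i x Q = some v) :
    M.rv X i x Q' = some v := by
  rw [rv_eq_some] at h ⊢
  obtain ⟨⟨t, ht, hc⟩, hv⟩ := h
  exact ⟨⟨t, by omega, hc⟩, hv⟩

theorem rv_computable {X : ℕ → Bool} (hX : Computable X) :
    Computable fun q : ℕ × ℕ × ℕ => M.rv X q.1 q.2.1 q.2.2 := by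
  classical
  have hd : Computable fun q : ((ℕ × ℕ × ℕ) × ℕ) × ℕ =>
      M.d (pre X q.1.2) q.1.1.1 q.1.1.2.1 q.2 := by
    refine M.cd (c_pre hX (Computable.snd.comp Computable.fst)) ?_ ?_ Computable.snd
    · exact Computable.fst.comp (Computable.fst.comp Computable.fst)
    · exact Computable.fst.comp (Computable.snd.comp (Computable.fst.comp Computable.fst))
  have hU : Computable fun q : ((ℕ × ℕ × ℕ) × ℕ) × ℕ =>
      M.U (pre X q.1.2) q.1.1.1 q.1.1.2.1 := by
    refine M.cU (c_pre hX (Computable.snd.comp Computable.fst)) ?_ ?_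
    · exact Computable.fst.comp (Computable.fst.comp Computable.fst)
    · exact Computable.fst.comp (Computable.snd.comp (Computable.fst.comp Computable.fst))
  have hR : CP fun x : (ℕ × ℕ × ℕ) × ℕ => ∀ t < x.1.2.2 + 1,
      M.d (pre X x.2) x.1.1 x.1.2.1 t ≠ none ∧
      (M.d (pre X x.2) x.1.1 x.1.2.1 t = some true → M.U (pre X x.2) x.1.1 x.1.2.1 ≠ none) := by
    refine CP.ball ?_ ?_
    · exact Computable.succ.comp (Computable.snd.comp (Computable.snd.comp Computable.fst))
    · refine CP.and (CP.not (CP.eq hd (Computable.const none))) (CP.imp ?_ ?_)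
      · exact CP.eq hd (Computable.const _)
      · exact CP.not (CP.eq hU (Computable.const none))
  obtain ⟨g, hg, hgR⟩ := CP.search (R := fun (q : ℕ × ℕ × ℕ) (n : ℕ) => ∀ t < q.2.2 + 1,
      M.d (pre X n) q.1 q.2.1 t ≠ none ∧
      (M.d (pre X n) q.1 q.2.1 t = some true → M.U (pre X n) q.1 q.2.1 ≠ none)) hR
    fun q => M.exists_dec X q.1 q.2.1 q.2.2
  have h1 : Computable fun q : ℕ × ℕ × ℕ =>
      if ∃ t < q.2.2 + 1, M.d (pre X (g q)) q.1 q.2.1 t = some true
        then M.U (pre X (g q)) q.1 q.2.1 else none := by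
    refine Pool.Agent.R557.CK.c_ite' (CP.dec ?_) ?_ (Computable.const none)
    · refine CP.bex (Computable.succ.comp (Computable.snd.comp Computable.snd)) ?_
      refine CP.eq ?_ (Computable.const _)
      exact hd.comp (Computable.pair (Computable.pair Computable.fst (hg.comp Computable.fst))
        Computable.snd)
    · exact M.cU (c_pre hX hg) Computable.fst (Computable.fst.comp Computable.snd)
  refine h1.of_eq fun q => ?_
  split_ifs with h
  · obtain ⟨t, ht, h2⟩ := h
    obtain ⟨v, hv⟩ := Option.ne_none_iff_exists'.1 ((hgR q t ht).2 h2)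
    rw [hv]
    symm
    rw [rv_eq_some]
    exact ⟨⟨t, ht, _, h2⟩, _, hv⟩
  · symm
    rw [rv_eq_none]
    intro t ht hc
    obtain ⟨b, hb⟩ := Option.ne_none_iff_exists'.1 (hgR q t ht).1
    cases b with
    | false => exact M.not_cost hb hc
    | true => exact h ⟨t, ht, hb⟩

end BM

end Pool.Agent.V8H40.BL
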