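import Mathlib

/-!
# Relative Blum measures
-/

set_option autoImplicit false

namespace Pool.Agent.V8H40.BL

/-- The first `n` values of the oracle `X`. -/
def pre (X : ℕ → Bool) (n : ℕ) : List Bool := (List.range n).map X

/-- `f` approximates the functional `Ψ`: `f σ i x` is the output of a fixed machine on the input
`i`, `x`, if it halts within `|σ|` steps when its oracle questions are answered by `σ`. -/
structure Approximates (f : List Bool → ℕ → ℕ → Option ℕ) (Ψ : (ℕ → Bool) → ℕ → ℕ →. ℕ) :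
    Prop where
  computable : Computable fun q : List Bool × ℕ × ℕ => f q.1 q.2.1 q.2.2
  mono : ∀ σ τ i x y, σ <+: τ → f σ i x = some y → f τ i x = some y
  spec : ∀ X i x y, y ∈ Ψ X i x ↔ ∃ n, f (pre X n) i x = some y

/-- `Ψ` is an oracle partial recursive functional (of an oracle and two numbers). -/
def OraclePartrec (Ψ : (ℕ → Bool) → ℕ → ℕ →. ℕ) : Prop := ∃ f, Approximates f Ψ

/-- `φ` is an acceptable numbering of the oracle partial recursive functions, uniformly in the
oracle: it is itself an oracle partial recursive functional and every other one can be translated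
into it by a recursive function that does not depend on the oracle. -/
structure Acceptable (φ : (ℕ → Bool) → ℕ → ℕ →. ℕ) : Prop where
  partrec : OraclePartrec φ
  universal : ∀ Ψ, OraclePartrec Ψ →
    ∃ S : ℕ → ℕ, Computable S ∧ ∀ X i x, φ X (S i) x = Ψ X i x

open Classical in
/-- `(φ, Φ)` is a relative Blum measure. -/
structure RelBlum (φ Φ : (ℕ → Bool) → ℕ → ℕ →. ℕ) : Prop where
  acceptable : Acceptable φ
  partrec : OraclePartrec Φ
  dom : ∀ X i x, (Φ X i x).Dom ↔ (φ X i x).Dom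
  graph : OraclePartrec fun X i z =>
    Part.some (if z.unpair.2 ∈ Φ X i z.unpair.1 then 1 else 0)

/-- The empty set as an oracle. -/
def emp : ℕ → Bool := fun _ => false

/-- `i` is a program for the set `A` with the oracle `X`. -/
def Prog (φ : (ℕ → Bool) → ℕ → ℕ →. ℕ) (X : ℕ → Bool) (i : ℕ) (A : ℕ → Bool) : Prop :=
  ∀ x, φ X i x = Part.some (A x).toNat

/-- `Φ^X-Comp(A) >_io t` -/
def CompIO (φ Φ : (ℕ → Bool) → ℕ → ℕ →. ℕ) (X A : ℕ → Bool) (t : ℕ → ℕ) : Prop :=
  ∀ i, Prog φ X i A → ∀ n, ∃ x, n ≤ x ∧ ∃ v ∈ Φ X i x, t x < v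

/-- `Φ^X-Comp(A) >_ae t` -/
def CompAE (φ Φ : (ℕ → Bool) → ℕ → ℕ →. ℕ) (X A : ℕ → Bool) (t : ℕ → ℕ) : Prop :=
  ∀ i, Prog φ X i A → ∃ n, ∀ x, n ≤ x → ∃ v ∈ Φ X i x, t x < v

end Pool.Agent.V8H40.BL
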