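import Pool.Agent.V8H40.BL.Fin

/-!
# Relative Blum measures exist
-/

set_option autoImplicit false

namespace Pool.Agent.V8H40.BL

open Encodable
open Pool.Agent.V8H40.OG (CP)
open Nat.Partrec (Code)
open Nat.Partrec.Code (eval evaln)

namespace Ex

/-- one attempt of the universal machine: its value is `v + 1` if a value `v` is found -/
def r (σ : List Bool) (i x m : ℕ) : Option ℕ :=
  evaln m.unpair.2 (Denumerable.ofNat Code i.unpair.1)
    (encode ((σ.take m.unpair.1, i.unpair.2, x) : List Bool × ℕ × ℕ))

theorem c_take {α : Type*} [Primcodable α] {L : α → List Bool} {n : α → ℕ} (hL : Computable L)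
    (hn : Computable n) : Computable fun a => (L a).take (n a) := by
  refine computable_of_rel (R := fun a K => K.length = min (n a) (L a).length ∧
    ∀ i < K.length, K.getD i false = (L a).getD i false) ?_ ?_ ?_
  · refine CP.and ?_ ?_
    · refine CP.eq (Computable.list_length.comp Computable.snd) ?_
      exact Primrec.nat_min.to_comp.comp (hn.comp Computable.fst)
        (Computable.list_length.comp (hL.comp Computable.fst))
    · refine CP.ball (Computable.list_length.comp Computable.snd) ?_
      exact CP.eq (c_getD (Computable.snd.comp Computable.fst) Computable.snd)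
        (c_getD (hL.comp (Computable.fst.comp Computable.fst)) Computable.snd)
  · intro a
    refine ⟨(L a).take (n a), by simp, ?_⟩
    intro i hi
    simp only [List.length_take, lt_min_iff] at hi
    simp [List.getD_eq_getElem?_getD, hi.1]
  · rintro a K ⟨h3, h4⟩
    apply List.ext_getElem
    · simp [h3]
    · intro i h5 h6
      have h7 := h4 i h6
      have h8 : i < (L a).length := by
        simp only [List.length_take, lt_min_iff] at h5
        exact h5.2
      simp only [List.getD_eq_getElem?_getD, List.getElem?_eq_getElem h6,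
        List.getElem?_eq_getElem h8, Option.getD_some] at h7
      simp [h7]

theorem c_r {α : Type*} [Primcodable α] {σ : α → List Bool} {i x m : α → ℕ} (hσ : Computable σ)
    (hi : Computable i) (hx : Computable x) (hm : Computable m) :
    Computable fun a => r (σ a) (i a) (x a) (m a) := by
  have h1 : Computable fun a : (ℕ × Code) × ℕ => evaln a.1.1 a.1.2 a.2 :=
    Nat.Partrec.Code.primrec_evaln.to_comp
  have hm' : Computable fun a => (m a).unpair := Computable.unpair.comp hm
  have hi' : Computable fun a => (i a).unpair := Computable.unpair.comp hi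
  have h2 : Computable fun a => Denumerable.ofNat Code (i a).unpair.1 :=
    (Computable.ofNat Code).comp (Computable.fst.comp hi')
  have h3 : Computable fun a =>
      encode (((σ a).take (m a).unpair.1, (i a).unpair.2, x a) : List Bool × ℕ × ℕ) :=
    Computable.encode.comp (Computable.pair (c_take hσ (Computable.fst.comp hm'))
      (Computable.pair (Computable.snd.comp hi') hx))
  have h4 := h1.comp (Computable.pair (Computable.pair (Computable.snd.comp hm') h2) h3)
  exact h4

theorem r_prefix {σ τ : List Bool} (h : σ <+: τ) {i x m : ℕ} (hm : m ≤ σ.length) :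
    r σ i x m = r τ i x m := by
  unfold r
  have h1 : σ.take m.unpair.1 = τ.take m.unpair.1 := by
    obtain ⟨ρ, rfl⟩ := h
    rw [List.take_append_of_le_length ((Nat.unpair_left_le m).trans hm)]
  rw [h1]

/-- a value is found -/
def Ok (σ : List Bool) (i x m : ℕ) : Prop := ∃ v, r σ i x m = some (v + 1)

theorem ok_iff {σ : List Bool} {i x m : ℕ} :
    Ok σ i x m ↔ r σ i x m ≠ none ∧ r σ i x m ≠ some 0 := by
  unfold Ok
  cases r σ i x m with
  | none => simp
  | some v => cases v <;> simp

theorem exists_g : ∃ g : List Bool → ℕ → ℕ → Option ℕ,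
    Computable (fun q : List Bool × ℕ × ℕ => g q.1 q.2.1 q.2.2) ∧
    (∀ σ i x, g σ i x = none ↔ ∀ m < σ.length + 1, ¬ Ok σ i x m) ∧
    ∀ σ i x m, g σ i x = some m ↔ m < σ.length + 1 ∧ Ok σ i x m ∧ ∀ j < m, ¬ Ok σ i x j := by
  have h1 : CP fun b : (List Bool × ℕ × ℕ) × ℕ => Ok b.1.1 b.1.2.1 b.1.2.2 b.2 := by
    have h2 : Computable fun b : (List Bool × ℕ × ℕ) × ℕ => r b.1.1 b.1.2.1 b.1.2.2 b.2 :=
      c_r (Computable.fst.comp Computable.fst)
        (Computable.fst.comp (Computable.snd.comp Computable.fst))
        (Computable.snd.comp (Computable.snd.comp Computable.fst)) Computable.snd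
    refine CP.of_iff (CP.and (CP.not (CP.eq h2 (Computable.const none)))
      (CP.not (CP.eq h2 (Computable.const (some 0))))) fun b => ?_
    exact ok_iff.symm
  obtain ⟨g, hg, hg1, hg2⟩ := CP.least (n := fun q : List Bool × ℕ × ℕ => q.1.length + 1)
    (p := fun q m => Ok q.1 q.2.1 q.2.2 m)
    (Computable.succ.comp (Computable.list_length.comp Computable.fst)) h1
  exact ⟨fun σ i x => g (σ, i, x), hg, fun σ i x => hg1 (σ, i, x), fun σ i x => hg2 (σ, i, x)⟩

end Ex

open Ex

/-- There is a relative Blum measure. -/
theorem exists_relBlum : ∃ φ Φ : (ℕ → Bool) → ℕ → ℕ →. ℕ, RelBlum φ Φ := by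
  classical
  obtain ⟨g, hg, hg1, hg2⟩ := exists_g
  have gmono : ∀ σ τ i x m, σ <+: τ → g σ i x = some m → g τ i x = some m := by
    intro σ τ i x m h h1
    rw [hg2] at h1 ⊢
    obtain ⟨h2, ⟨v, h3⟩, h4⟩ := h1
    refine ⟨by have := h.length_le; omega, ⟨v, ?_⟩, fun j hj => ?_⟩
    · rw [← r_prefix h (by omega)]; exact h3
    · rintro ⟨w, hw⟩
      rw [← r_prefix h (by omega)] at hw
      exact h4 j hj ⟨w, hw⟩
  let U : List Bool → ℕ → ℕ → Option ℕ := fun σ i x =>
    (g σ i x).bind fun m => (r σ i x m).map Nat.pred
  have hU : Computable fun q : List Bool × ℕ × ℕ => U q.1 q.2.1 q.2.2 := by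
    refine Computable.option_bind hg ?_
    have h2 : Computable fun b : (List Bool × ℕ × ℕ) × ℕ => r b.1.1 b.1.2.1 b.1.2.2 b.2 :=
      c_r (Computable.fst.comp Computable.fst)
        (Computable.fst.comp (Computable.snd.comp Computable.fst))
        (Computable.snd.comp (Computable.snd.comp Computable.fst)) Computable.snd
    have h3 : Computable₂ fun (_ : (List Bool × ℕ × ℕ) × ℕ) (v : ℕ) => Nat.pred v :=
      (Primrec.pred.to_comp).comp Computable.snd
    exact Computable.option_map h2 h3
  have Umono : ∀ σ τ i x y, σ <+: τ → U σ i x = some y → U τ i x = some y := by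
    intro σ τ i x y h h1
    simp only [U, Option.bind_eq_some_iff] at h1 ⊢
    obtain ⟨m, h2, h3⟩ := h1
    refine ⟨m, gmono _ _ _ _ _ h h2, ?_⟩
    rw [← r_prefix h (by have := ((hg2 _ _ _ _).1 h2).1; omega)]
    exact h3
  let φ : (ℕ → Bool) → ℕ → ℕ →. ℕ := fun X i x => Nat.rfindOpt fun n => U (pre X n) i x
  let Φ : (ℕ → Bool) → ℕ → ℕ →. ℕ := fun X i x => Nat.rfindOpt fun n => g (pre X n) i x
  have hφ : Approximates U φ := by
    refine ⟨hU, Umono, fun X i x y => ?_⟩
    rw [Nat.rfindOpt_mono]
    · exact Iff.rfl
    · intro a m n hmn ha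
      exact Umono _ _ _ _ _ (pre_mono X hmn) ha
  have hΦ : Approximates g Φ := by
    refine ⟨hg, gmono, fun X i x y => ?_⟩
    rw [Nat.rfindOpt_mono]
    · exact Iff.rfl
    · intro a m n hmn ha
      exact gmono _ _ _ _ _ (pre_mono X hmn) ha
  have hdomU : ∀ σ i x, (∃ v, U σ i x = some v) ↔ ∃ m, g σ i x = some m := by
    intro σ i x
    constructor
    · rintro ⟨v, hv⟩
      simp only [U, Option.bind_eq_some_iff] at hv
      obtain ⟨m, h2, _⟩ := hv
      exact ⟨m, h2⟩
    · rintro ⟨m, hm⟩
      obtain ⟨v, hv⟩ := ((hg2 _ _ _ _).1 hm).2.1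
      exact ⟨v, by simp only [U, hm, Option.bind_some, hv, Option.map_some, Nat.pred_succ]⟩
  refine ⟨φ, Φ, ⟨⟨U, hφ⟩, ?_⟩, ⟨g, hΦ⟩, ?_, ?_⟩
  · rintro Ψ ⟨f, hf⟩
    -- a code for `f`
    have h1 : Partrec fun n : ℕ => (Part.ofOption
        ((decode n : Option (List Bool × ℕ × ℕ)).map fun q => encode (f q.1 q.2.1 q.2.2)) :
          Part ℕ) := by
      refine Computable.ofOption ?_
      refine Computable.option_map Computable.decode ?_
      exact Computable.encode.comp (hf.computable.comp Computable.snd)
    obtain ⟨e, he⟩ := Nat.Partrec.Code.exists_code.1 (Partrec.nat_iff.1 h1)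
    refine ⟨fun i => Nat.pair (encode e) i, ?_, fun X i x => ?_⟩
    · exact Primrec₂.natPair.to_comp.comp (Computable.const _) Computable.id
    · -- values of the attempts
      have hr : ∀ σ m v, r σ (Nat.pair (encode e) i) x m = some (v + 1) →
          f (σ.take m.unpair.1) i x = some v := by
        intro σ m v h
        simp only [r, Nat.unpair_pair, Denumerable.ofNat_encode] at h
        have h2 := Nat.Partrec.Code.evaln_sound h
        rw [he] at h2
        simp only [encodek, Option.map_some, Part.mem_ofOption, Option.mem_def,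
          Option.some_inj] at h2
        cases hfv : f (σ.take m.unpair.1) i x with
        | none => rw [hfv] at h2; simp at h2
        | some w =>
          rw [hfv] at h2
          simp only [encode_some, encode_nat] at h2
          congr 1
          omega
      have hr2 : ∀ n v, f (pre X n) i x = some v → ∃ k, ∀ k' ≥ k,
          r (pre X (Nat.pair n k')) (Nat.pair (encode e) i) x (Nat.pair n k') = some (v + 1) := by
        intro n v hv
        have h2 : v + 1 ∈ eval e (encode ((pre X n, i, x) : List Bool × ℕ × ℕ)) := by
          rw [he]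
          simp [hv]
        rw [Nat.Partrec.Code.evaln_complete] at h2
        obtain ⟨k, hk⟩ := h2
        refine ⟨k, fun k' hk' => ?_⟩
        have h3 := Nat.Partrec.Code.evaln_mono hk' hk
        simp only [r, Nat.unpair_pair, Denumerable.ofNat_encode]
        have h4 : (pre X (Nat.pair n k')).take n = pre X n := by
          have := take_eq_of_prefix (pre_mono X (Nat.left_le_pair n k'))
          rwa [pre_length] at this
        rw [h4]
        exact h3
      ext y
      rw [hφ.spec, hf.spec]
      constructor
      · rintro ⟨n, hn⟩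
        simp only [U, Option.bind_eq_some_iff] at hn
        obtain ⟨m, h2, h3⟩ := hn
        obtain ⟨h4, ⟨v, h5⟩, _⟩ := (hg2 _ _ _ _).1 h2
        rw [h5, Option.map_some, Nat.pred_succ, Option.some_inj] at h3
        have h6 := hr _ _ _ h5
        rw [pre_length] at h4
        have h7 : (pre X n).take m.unpair.1 = pre X m.unpair.1 := by
          have h8 : m.unpair.1 ≤ n := (Nat.unpair_left_le m).trans (by omega)
          have := take_eq_of_prefix (pre_mono X h8)
          rwa [pre_length] at this
        rw [h7] at h6
        exact ⟨_, h3 ▸ h6⟩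
      · rintro ⟨n, hn⟩
        obtain ⟨k, hk⟩ := hr2 n y hn
        set M := Nat.pair n k with hM
        have h2 : Ok (pre X M) (Nat.pair (encode e) i) x M := ⟨y, hk k le_rfl⟩
        have h3 : ∃ m, g (pre X M) (Nat.pair (encode e) i) x = some m := by
          cases h4 : g (pre X M) (Nat.pair (encode e) i) x with
          | none =>
            rw [hg1] at h4
            exact absurd h2 (h4 M (by rw [pre_length]; omega))
          | some m => exact ⟨m, rfl⟩
        obtain ⟨v, hv⟩ := (hdomU _ _ _).2 h3
        refine ⟨M, ?_⟩
        rw [hv]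
        simp only [U, Option.bind_eq_some_iff] at hv
        obtain ⟨m, h5, h6⟩ := hv
        obtain ⟨h7, ⟨w, h8⟩, _⟩ := (hg2 _ _ _ _).1 h5
        rw [h8, Option.map_some, Nat.pred_succ, Option.some_inj] at h6
        have h9 := hr _ _ _ h8
        have h10 := hf.mono _ (pre X (max M n)) _ _ _
          ((List.take_prefix _ _).trans (pre_mono X (le_max_left _ _))) h9
        have h11 := hf.mono _ (pre X (max M n)) _ _ _ (pre_mono X (le_max_right _ _)) hn
        rw [h10] at h11
        rw [← h6]
        exact h11
  · intro X i x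
    rw [Part.dom_iff_mem, Part.dom_iff_mem]
    constructor
    · rintro ⟨m, hm⟩
      obtain ⟨n, hn⟩ := (hΦ.spec _ _ _ _).1 hm
      obtain ⟨v, hv⟩ := (hdomU _ _ _).2 ⟨m, hn⟩
      exact ⟨v, (hφ.spec _ _ _ _).2 ⟨n, hv⟩⟩
    · rintro ⟨v, hv⟩
      obtain ⟨n, hn⟩ := (hφ.spec _ _ _ _).1 hv
      obtain ⟨m, hm⟩ := (hdomU _ _ _).1 ⟨v, hn⟩
      exact ⟨m, (hΦ.spec _ _ _ _).2 ⟨n, hm⟩⟩
  · refine ⟨fun σ i z => if z.unpair.2 < σ.length + 1 then
      (if g σ i z.unpair.1 = some z.unpair.2 then some 1 else some 0) else none, ?_, ?_, ?_⟩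
    · have hz : Computable fun q : List Bool × ℕ × ℕ => q.2.2.unpair :=
        Computable.unpair.comp (Computable.snd.comp Computable.snd)
      have h1 : Computable fun q : List Bool × ℕ × ℕ => decide (q.2.2.unpair.2 < q.1.length + 1) :=
        Pool.Agent.H166R3.AT.c_lt (Computable.snd.comp hz)
          (Computable.succ.comp (Computable.list_length.comp Computable.fst))
      have h2 : Computable fun q : List Bool × ℕ × ℕ => g q.1 q.2.1 q.2.2.unpair.1 := by
        have h3 : Computable fun q : List Bool × ℕ × ℕ =>
            ((q.1, q.2.1, q.2.2.unpair.1) : List Bool × ℕ × ℕ) :=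
          Computable.pair Computable.fst (Computable.pair (Computable.fst.comp Computable.snd)
            (Computable.fst.comp hz))
        have h4 := hg.comp h3
        exact h4
      have h3 := (CP.eq h2 (Computable.option_some.comp (Computable.snd.comp hz))).dec
      have h4 := Pool.Agent.R557.CK.c_ite' h1 (Pool.Agent.R557.CK.c_ite' h3
        (Computable.const (some 1)) (Computable.const (some 0))) (Computable.const none)
      exact h4
    · intro σ τ i z y h h1
      split_ifs at h1 with h2 h3
      · rw [if_pos (by have := h.length_le; omega), if_pos (gmono _ _ _ _ _ h h3)]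
        exact h1
      · rw [if_pos (by have := h.length_le; omega), if_neg]
        · exact h1
        · intro h4
          apply h3
          rw [hg2] at h4 ⊢
          obtain ⟨_, ⟨v, h5⟩, h6⟩ := h4
          refine ⟨h2, ⟨v, ?_⟩, fun j hj => ?_⟩
          · rw [r_prefix h (by omega)]; exact h5
          · rintro ⟨w, hw⟩
            rw [r_prefix h (by omega)] at hw
            exact h6 j hj ⟨w, hw⟩
    · intro X i z y
      rw [Part.mem_some_iff]
      have h1 : ∀ n, z.unpair.2 < n + 1 →
          (g (pre X n) i z.unpair.1 = some z.unpair.2 ↔ z.unpair.2 ∈ Φ X i z.unpair.1) := by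
        intro n hn
        rw [hΦ.spec]
        constructor
        · intro h
          exact ⟨n, h⟩
        · rintro ⟨n', hn'⟩
          rw [hg2] at hn' ⊢
          obtain ⟨h2, ⟨v, h3⟩, h4⟩ := hn'
          rw [pre_length] at h2
          have hcomp : ∀ j ≤ z.unpair.2, r (pre X n) i z.unpair.1 j =
              r (pre X n') i z.unpair.1 j := by
            intro j hj
            rw [r_prefix (pre_mono X (le_max_left n n')) (by rw [pre_length]; omega),
              r_prefix (pre_mono X (le_max_right n n')) (by rw [pre_length]; omega)]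
          refine ⟨by rw [pre_length]; exact hn, ⟨v, ?_⟩, fun j hj => ?_⟩
          · rw [hcomp _ le_rfl]; exact h3
          · rintro ⟨w, hw⟩
            rw [hcomp j (by omega)] at hw
            exact h4 j hj ⟨w, hw⟩
      by_cases h2 : z.unpair.2 ∈ Φ X i z.unpair.1
      · rw [if_pos h2]
        constructor
        · rintro rfl
          refine ⟨z.unpair.2, ?_⟩
          rw [if_pos (by rw [pre_length]; omega), if_pos ((h1 _ (by omega)).2 h2)]
        · rintro ⟨n, hn⟩
          split_ifs at hn with h3 h4
          · exact (Option.some.inj hn).symm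
          · rw [pre_length] at h3
            exact absurd ((h1 n h3).2 h2) h4
      · rw [if_neg h2]
        constructor
        · rintro rfl
          refine ⟨z.unpair.2, ?_⟩
          rw [if_pos (by rw [pre_length]; omega), if_neg fun h => h2 ((h1 _ (by omega)).1 h)]
        · rintro ⟨n, hn⟩
          split_ifs at hn with h3 h4
          · rw [pre_length] at h3
            exact absurd ((h1 n h3).1 h4) h2
          · exact (Option.some.inj hn).symm

end Pool.Agent.V8H40.BL
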