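import Pool.Agent.V8H40.BL.Inj

/-!
# Relative Blum measures: the main theorem
-/

set_option autoImplicit false

namespace Pool.Agent.V8H40.BL

open Encodable
open Pool.Agent.V8H40.OG (CP)

theorem toBM {φ Φ : (ℕ → Bool) → ℕ → ℕ →. ℕ} (h : RelBlum φ Φ) : ∃ M : BM,
    (∀ X i x v, M.Val X i x v ↔ v ∈ φ X i x) ∧ ∀ X i x t, M.Cost X i x t ↔ t ∈ Φ X i x := by
  classical
  obtain ⟨f, hf⟩ := h.acceptable.partrec
  obtain ⟨f', hf'⟩ := h.graph
  let d : List Bool → ℕ → ℕ → ℕ → Option Bool := fun σ i x t =>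
    (f' σ i (Nat.pair x t)).map fun v => decide (v = 1)
  have hcost : ∀ X i x t, (∃ n, d (pre X n) i x t = some true) ↔ t ∈ Φ X i x := by
    intro X i x t
    have h1 := hf'.spec X i (Nat.pair x t) 1
    simp only [Nat.unpair_pair, Part.mem_some_iff] at h1
    have h2 : (∃ n, d (pre X n) i x t = some true) ↔
        ∃ n, f' (pre X n) i (Nat.pair x t) = some 1 := by
      refine exists_congr fun n => ?_
      simp only [d, Option.map_eq_some_iff, decide_eq_true_eq]
      constructor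
      · rintro ⟨a, h3, rfl⟩
        exact h3
      · intro h3
        exact ⟨1, h3, rfl⟩
    rw [h2, ← h1]
    by_cases h3 : t ∈ Φ X i x <;> simp [h3]
  have htot : ∀ X i x t, ∃ n b, d (pre X n) i x t = some b := by
    intro X i x t
    obtain ⟨n, hn⟩ := (hf'.spec X i (Nat.pair x t)
      (if (Nat.pair x t).unpair.2 ∈ Φ X i (Nat.pair x t).unpair.1 then 1 else 0)).1
      (Part.mem_some _)
    refine ⟨n, decide ((if (Nat.pair x t).unpair.2 ∈ Φ X i (Nat.pair x t).unpair.1
      then 1 else 0) = 1), ?_⟩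
    simp only [d, hn, Option.map_some]
  let M : BM :=
    { U := f
      d := d
      hU := hf.computable
      hd := by
        have h1 : Computable fun q : List Bool × ℕ × ℕ × ℕ =>
            ((q.1, q.2.1, Nat.pair q.2.2.1 q.2.2.2) : List Bool × ℕ × ℕ) :=
          Computable.pair Computable.fst (Computable.pair (Computable.fst.comp Computable.snd)
            (Primrec₂.natPair.to_comp.comp
              (Computable.fst.comp (Computable.snd.comp Computable.snd))
              (Computable.snd.comp (Computable.snd.comp Computable.snd))))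
        have h2 := hf'.computable.comp h1
        refine Computable.option_map h2 ?_
        have h3 : CP fun x : (List Bool × ℕ × ℕ × ℕ) × ℕ => x.2 = 1 :=
          CP.eq Computable.snd (Computable.const 1)
        exact h3.dec
      mU := fun σ τ i x y h1 h2 => hf.mono σ τ i x y h1 h2
      md := by
        intro σ τ i x t b h1 h2
        simp only [d, Option.map_eq_some_iff] at h2 ⊢
        obtain ⟨a, h3, h4⟩ := h2
        exact ⟨a, hf'.mono _ _ _ _ _ h1 h3, h4⟩
      dtot := htot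
      uniq := by
        intro X i x t t' n n' h1 h2
        exact Part.mem_unique ((hcost X i x t).1 ⟨n, h1⟩) ((hcost X i x t').1 ⟨n', h2⟩)
      dom1 := by
        intro X i x t n h1
        have h2 := (hcost X i x t).1 ⟨n, h1⟩
        have h3 : (φ X i x).Dom := (h.dom X i x).1 (Part.dom_iff_mem.2 ⟨t, h2⟩)
        obtain ⟨v, hv⟩ := Part.dom_iff_mem.1 h3
        obtain ⟨m, hm⟩ := (hf.spec X i x v).1 hv
        exact ⟨m, v, hm⟩
      dom2 := by
        intro X i x v n h1
        have h2 := (hf.spec X i x v).2 ⟨n, h1⟩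
        have h3 : (Φ X i x).Dom := (h.dom X i x).2 (Part.dom_iff_mem.2 ⟨v, h2⟩)
        obtain ⟨t, ht⟩ := Part.dom_iff_mem.1 h3
        obtain ⟨m, hm⟩ := (hcost X i x t).2 ht
        exact ⟨m, t, hm⟩
      univ := by
        intro F hF hFm
        have h1 : Approximates F fun X i x => Nat.rfindOpt fun n => F (pre X n) i x := by
          refine ⟨hF, hFm, fun X i x y => ?_⟩
          rw [Nat.rfindOpt_mono]
          · exact Iff.rfl
          · intro a m n hmn ha
            exact hFm _ _ _ _ _ (pre_mono X hmn) ha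
        obtain ⟨S, hS, hS2⟩ := h.acceptable.universal _ ⟨F, h1⟩
        refine ⟨S, hS, fun X i x y => ?_⟩
        rw [← h1.spec, ← hf.spec, hS2] }
  exact ⟨M, fun X i x v => (hf.spec X i x v).symm, hcost⟩

/-- The main theorem. -/
theorem non_helping (φ Φ : (ℕ → Bool) → ℕ → ℕ →. ℕ) (h : RelBlum φ Φ) :
    ∃ g : ℕ → ℕ → ℕ, Computable₂ g ∧
      ∀ A : ℕ → Bool, Computable A → ∀ s : ℕ → ℕ, Computable s →
        ∃ B : ℕ → Bool, Computable B ∧ CompAE φ Φ emp B s ∧
          (∀ t : ℕ → ℕ, Computable t →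
            CompIO φ Φ emp A (fun x => g x (t x)) → CompIO φ Φ B A t) ∧
          (∀ t : ℕ → ℕ, Computable t → CompIO φ Φ emp B t → CompIO φ Φ A B t) := by
  obtain ⟨M, hM1, hM2⟩ := toBM h
  obtain ⟨g, hg, hmain⟩ := main M
  have hprog : ∀ X i A, Prog φ X i A ↔ ∀ x, M.Val X i x (A x).toNat := by
    intro X i A
    unfold Prog
    refine forall_congr' fun x => ?_
    rw [hM1, Part.eq_some_iff]
  refine ⟨g, hg, fun A hA s hs => ?_⟩
  obtain ⟨B, hB, h1, h2, hgm, h3⟩ := hmain A hA s hs
  refine ⟨B, hB, ?_, ?_, ?_⟩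
  · intro k hk
    rw [hprog] at hk
    obtain ⟨n, hn⟩ := h1 k hk
    refine ⟨n, fun x hx => ?_⟩
    obtain ⟨t, ht⟩ := M.cost_of_val (hk x)
    exact ⟨t, (hM2 _ _ _ _).1 ht, hn x hx t ht⟩
  · intro t _ H i hi n
    rw [hprog] at hi
    obtain ⟨S, hS, x0, hx0⟩ := h2 i hi
    obtain ⟨x, hx, v, hv, hlt⟩ := H S ((hprog _ _ _).2 hS) (max n x0)
    obtain ⟨T, hT⟩ := M.cost_of_val (hi x)
    refine ⟨x, (le_max_left _ _).trans hx, T, (hM2 _ _ _ _).1 hT, ?_⟩
    have h4 := hx0 x ((le_max_right _ _).trans hx) T hT v ((hM2 _ _ _ _).2 hv)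
    by_contra h5
    push Not at h5
    have h6 := hgm x h5
    dsimp only at hlt
    omega
  · intro t _ H k hk n
    rw [hprog] at hk
    obtain ⟨j, hj, n0, hn0⟩ := h3 k hk
    obtain ⟨x, hx, v, hv, hlt⟩ := H j ((hprog _ _ _).2 hj) (max n n0)
    obtain ⟨T, hT⟩ := M.cost_of_val (hk x)
    refine ⟨x, (le_max_left _ _).trans hx, T, (hM2 _ _ _ _).1 hT, ?_⟩
    have h4 := hn0 x ((le_max_right _ _).trans hx) v T ((hM2 _ _ _ _).2 hv) hT
    omega

end Pool.Agent.V8H40.BL
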