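import Pool.Agent.V8H40.BL.Cons

/-!
# Programs for the constructed sets: the recursion theorem
-/

set_option autoImplicit false

namespace Pool.Agent.V8H40.BL

open Encodable
open Pool.Agent.V8H40.OG (CP)
open Nat.Partrec (Code)
open Nat.Partrec.Code (eval evaln)

namespace BM

variable (M : BM)

/-- indices of plain programs -/
theorem exists_index : ∃ J : Code → ℕ → ℕ, Computable₂ J ∧
    ∀ X e k x v, M.Val X (J e k) x v ↔ v ∈ eval e (Nat.pair k x) := by
  have hco : Computable fun n : ℕ => (Denumerable.ofNat Code n) := Computable.ofNat Code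
  obtain ⟨S, hS, hS2⟩ := M.univ (fun σ i x =>
      evaln σ.length (Denumerable.ofNat Code i.unpair.1) (Nat.pair i.unpair.2 x)) (by
    have h1 : Computable fun a : (ℕ × Code) × ℕ => evaln a.1.1 a.1.2 a.2 :=
      Nat.Partrec.Code.primrec_evaln.to_comp
    have hi : Computable fun q : List Bool × ℕ × ℕ => q.2.1.unpair :=
      Computable.unpair.comp (Computable.fst.comp Computable.snd)
    have h2 : Computable fun q : List Bool × ℕ × ℕ =>
        (((q.1.length, Denumerable.ofNat Code q.2.1.unpair.1), Nat.pair q.2.1.unpair.2 q.2.2) :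
          (ℕ × Code) × ℕ) := by
      refine Computable.pair (Computable.pair (Computable.list_length.comp Computable.fst) ?_) ?_
      · exact hco.comp (Computable.fst.comp hi)
      · exact Primrec₂.natPair.to_comp.comp (Computable.snd.comp hi)
          (Computable.snd.comp Computable.snd)
    have h3 := h1.comp h2
    exact h3) (by
    intro σ τ i x y h h1
    exact Nat.Partrec.Code.evaln_mono h.length_le h1)
  refine ⟨fun e k => S (Nat.pair (encode e) k), ?_, ?_⟩
  · have h1 : Computable₂ fun (e : Code) (k : ℕ) => Nat.pair (encode e) k :=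
      Primrec₂.natPair.to_comp.comp (Computable.encode.comp Computable.fst) Computable.snd
    exact hS.comp h1
  · intro X e k x v
    unfold Val
    rw [hS2]
    simp only [Nat.unpair_pair, pre_length, Denumerable.ofNat_encode]
    rw [Nat.Partrec.Code.evaln_complete]
    exact Iff.rfl

variable {M} {J : Code → ℕ → ℕ} (hJ : Computable₂ J)
  (hJ2 : ∀ X e k x v, M.Val X (J e k) x v ↔ v ∈ eval e (Nat.pair k x))

variable (M J) in
/-- the cost of a program is found with the bound `m` -/
def okc (e : Code) (m u D y : ℕ) : Prop :=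
  ∃ t < m + 1, M.d (pre emp m) (J e (Nat.pair u D)) y t = some true

open Classical in
variable (M J) in
/-- approximation of the costs -/
noncomputable def cst (e : Code) (m u D y : ℕ) : ℕ :=
  if h : M.okc J e m u D y then h.choose else 0

theorem cst_spec {e : Code} {m u D y : ℕ} (h : M.okc J e m u D y) :
    M.cst J e m u D y < m + 1 ∧
      M.d (pre emp m) (J e (Nat.pair u D)) y (M.cst J e m u D y) = some true := by
  unfold cst
  rw [dif_pos h]
  exact h.choose_spec

theorem cst_cost {e : Code} {m u D y : ℕ} (h : M.okc J e m u D y) :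
    M.Cost emp (J e (Nat.pair u D)) y (M.cst J e m u D y) := ⟨m, (cst_spec h).2⟩

theorem okc_mono {e : Code} {m m' u D y : ℕ} (hm : m ≤ m') (h : M.okc J e m u D y) :
    M.okc J e m' u D y := by
  obtain ⟨t, ht, h1⟩ := h
  exact ⟨t, by omega, M.md _ _ _ _ _ _ (pre_mono _ hm) h1⟩

theorem okc_of_cost {e : Code} {u D y t : ℕ} (h : M.Cost emp (J e (Nat.pair u D)) y t) :
    ∃ m, M.okc J e m u D y := by
  obtain ⟨n, hn⟩ := h
  exact ⟨max n t, t, by have := le_max_right n t; omega,
    M.md _ _ _ _ _ _ (pre_mono _ (le_max_left _ _)) hn⟩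

theorem cp_emp {γ : Type*} [Primcodable γ] {n : γ → ℕ} (hn : Computable n) :
    Computable fun a => pre emp (n a) := by
  have h1 : Computable emp := Computable.const false
  exact BM.c_pre h1 hn

include hJ

theorem cp_d' : CP fun x : (Code × ℕ × ℕ × ℕ × ℕ) × ℕ =>
    M.d (pre emp x.1.2.1) (J x.1.1 (Nat.pair x.1.2.2.1 x.1.2.2.2.1)) x.1.2.2.2.2 x.2
      = some true := by
  have he : Computable fun x : (Code × ℕ × ℕ × ℕ × ℕ) × ℕ => x.1.1 :=
    Computable.fst.comp Computable.fst
  have hm : Computable fun x : (Code × ℕ × ℕ × ℕ × ℕ) × ℕ => x.1.2.1 :=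
    Computable.fst.comp (Computable.snd.comp Computable.fst)
  have h3 : Computable fun x : (Code × ℕ × ℕ × ℕ × ℕ) × ℕ => x.1.2.2 :=
    Computable.snd.comp (Computable.snd.comp Computable.fst)
  have h4 : Computable fun x : (Code × ℕ × ℕ × ℕ × ℕ) × ℕ =>
      Nat.pair x.1.2.2.1 x.1.2.2.2.1 :=
    Primrec₂.natPair.to_comp.comp (Computable.fst.comp h3)
      (Computable.fst.comp (Computable.snd.comp h3))
  have h5 : Computable fun x : (Code × ℕ × ℕ × ℕ × ℕ) × ℕ =>
      J x.1.1 (Nat.pair x.1.2.2.1 x.1.2.2.2.1) := hJ.comp he h4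
  exact M.cp_d (cp_emp hm) h5 (Computable.snd.comp (Computable.snd.comp h3)) Computable.snd _

theorem cp_okc : CP fun x : Code × ℕ × ℕ × ℕ × ℕ =>
    M.okc J x.1 x.2.1 x.2.2.1 x.2.2.2.1 x.2.2.2.2 := by
  have h1 := CP.bex (n := fun x : Code × ℕ × ℕ × ℕ × ℕ => x.2.1 + 1)
    (p := fun x t => M.d (pre emp x.2.1) (J x.1 (Nat.pair x.2.2.1 x.2.2.2.1)) x.2.2.2.2 t
      = some true)
    (Computable.succ.comp (Computable.fst.comp Computable.snd)) (cp_d' (M := M) hJ)
  exact h1.of_iff fun x => Iff.rfl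

theorem c_cst : Computable fun x : Code × ℕ × ℕ × ℕ × ℕ =>
    M.cst J x.1 x.2.1 x.2.2.1 x.2.2.2.1 x.2.2.2.2 := by
  classical
  have h0 := cp_d' (M := M) hJ
  have h1 := cp_okc (M := M) hJ
  refine computable_of_rel (R := fun (x : Code × ℕ × ℕ × ℕ × ℕ) (v : ℕ) =>
    M.d (pre emp x.2.1) (J x.1 (Nat.pair x.2.2.1 x.2.2.2.1)) x.2.2.2.2 v = some true ∧
      M.okc J x.1 x.2.1 x.2.2.1 x.2.2.2.1 x.2.2.2.2 ∨
    (v = 0 ∧ ¬ M.okc J x.1 x.2.1 x.2.2.1 x.2.2.2.1 x.2.2.2.2)) ?_ ?_ ?_
  · have h2 := h1.comp (Computable.fst (α := Code × ℕ × ℕ × ℕ × ℕ) (β := ℕ))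
    have h3 : CP fun x : (Code × ℕ × ℕ × ℕ × ℕ) × ℕ => x.2 = 0 :=
      CP.eq Computable.snd (Computable.const 0)
    exact ((h0.and h2).or (h3.and h2.not)).of_iff fun x => Iff.rfl
  · intro x
    by_cases h : M.okc J x.1 x.2.1 x.2.2.1 x.2.2.2.1 x.2.2.2.2
    · exact ⟨_, Or.inl ⟨(cst_spec h).2, h⟩⟩
    · exact ⟨0, Or.inr ⟨rfl, h⟩⟩
  · rintro x v (⟨h2, h3⟩ | ⟨rfl, h2⟩)
    · exact M.uniq _ _ _ _ _ _ _ (cst_spec h3).2 h2
    · unfold cst
      rw [dif_neg h2]

end BM

/-- the string with a given code -/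
def dec (D : ℕ) : List Bool := (decode D : Option (List Bool)).getD []

theorem dec_encode (σ : List Bool) : dec (encode σ) = σ := by simp [dec]

theorem dec_computable : Computable dec :=
  Computable.option_getD Computable.decode (Computable.const [])

/-- Programs for the constructed sets. -/
theorem exists_programs (M : BM) {p : ℕ → ℕ → List Bool → Option Bool} {s : ℕ → ℕ}
    (hp : Computable fun q : ℕ × ℕ × List Bool => p q.1 q.2.1 q.2.2) (hs : Computable s) :
    ∃ (j : ℕ → ℕ → ℕ) (c : ℕ → ℕ → ℕ → ℕ),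
      (∀ u D y, M.Cost emp (j u D) y (c u D y)) ∧
      (∀ u D y, M.Val emp (j u D) y (Bs p s c u (dec D) y).toNat) ∧
      ∀ u D, Computable (Bs p s c u (dec D)) := by
  classical
  obtain ⟨J, hJ, hJ2⟩ := M.exists_index
  -- all needed costs are found
  let All : Code × ℕ × ℕ → ℕ → Prop := fun q m => ∀ u' < q.2.2 + 1, ∀ D < q.2.2 + 1,
    ∀ z < q.2.2 + 1, q.2.1 < u' → u' ≤ z → D ≤ z → M.okc J q.1 m u' D z
  have hAll : CP fun x : (Code × ℕ × ℕ) × ℕ => All x.1 x.2 := by
    have hn : ∀ {γ : Type} [Primcodable γ] {f : γ → Code × ℕ × ℕ}, Computable f →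
        Computable fun x => (f x).2.2 + 1 := fun hf =>
      Computable.succ.comp (Computable.snd.comp (Computable.snd.comp hf))
    have e0 : Computable fun x : ((((Code × ℕ × ℕ) × ℕ) × ℕ) × ℕ) × ℕ => x.1.1.1.1 :=
      Computable.fst.comp (Computable.fst.comp (Computable.fst.comp Computable.fst))
    have em : Computable fun x : ((((Code × ℕ × ℕ) × ℕ) × ℕ) × ℕ) × ℕ => x.1.1.1.2 :=
      Computable.snd.comp (Computable.fst.comp (Computable.fst.comp Computable.fst))
    have eu : Computable fun x : ((((Code × ℕ × ℕ) × ℕ) × ℕ) × ℕ) × ℕ => x.1.1.2 :=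
      Computable.snd.comp (Computable.fst.comp Computable.fst)
    have eD : Computable fun x : ((((Code × ℕ × ℕ) × ℕ) × ℕ) × ℕ) × ℕ => x.1.2 :=
      Computable.snd.comp Computable.fst
    have h1 : Computable fun x : ((((Code × ℕ × ℕ) × ℕ) × ℕ) × ℕ) × ℕ =>
        ((x.1.1.1.1.1, x.1.1.1.2, x.1.1.2, x.1.2, x.2) : Code × ℕ × ℕ × ℕ × ℕ) :=
      Computable.pair (Computable.fst.comp e0) (Computable.pair em (Computable.pair eu
        (Computable.pair eD Computable.snd)))
    have h2 := (BM.cp_okc (M := M) hJ).comp h1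
    have h3 : CP fun x : ((((Code × ℕ × ℕ) × ℕ) × ℕ) × ℕ) × ℕ =>
        x.1.1.1.1.2.1 < x.1.1.2 → x.1.1.2 ≤ x.2 → x.1.2 ≤ x.2 →
          M.okc J x.1.1.1.1.1 x.1.1.1.2 x.1.1.2 x.1.2 x.2 :=
      CP.imp (CP.lt (Computable.fst.comp (Computable.snd.comp e0)) eu)
        (CP.imp (CP.le eu Computable.snd) (CP.imp (CP.le eD Computable.snd) h2))
    have h4 := CP.ball (n := fun x : (((Code × ℕ × ℕ) × ℕ) × ℕ) × ℕ => x.1.1.1.2.2 + 1)
      (p := fun x z => x.1.1.1.2.1 < x.1.2 → x.1.2 ≤ z → x.2 ≤ z →
          M.okc J x.1.1.1.1 x.1.1.2 x.1.2 x.2 z)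
      (hn (Computable.fst.comp (Computable.fst.comp Computable.fst))) h3
    have h5 := CP.ball (n := fun x : ((Code × ℕ × ℕ) × ℕ) × ℕ => x.1.1.2.2 + 1)
      (p := fun x D => ∀ z < x.1.1.2.2 + 1, x.1.1.2.1 < x.2 → x.2 ≤ z → D ≤ z →
          M.okc J x.1.1.1 x.1.2 x.2 D z)
      (hn (Computable.fst.comp Computable.fst)) h4
    have h6 := CP.ball (n := fun x : (Code × ℕ × ℕ) × ℕ => x.1.2.2 + 1)
      (p := fun x u' => ∀ D < x.1.2.2 + 1, ∀ z < x.1.2.2 + 1, x.1.2.1 < u' → u' ≤ z → D ≤ z →
          M.okc J x.1.1 x.2 u' D z)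
      (hn Computable.fst) h5
    exact h6.of_iff fun x => Iff.rfl
  obtain ⟨f, hf, hfA⟩ := hAll
  -- the program
  let F : Code → ℕ →. ℕ := fun e z =>
    (Nat.rfind fun m => Part.some (f ((e, z.unpair.1.unpair.1, z.unpair.2), m))).map fun m =>
      (Bs p s (M.cst J e m) z.unpair.1.unpair.1 (dec z.unpair.1.unpair.2) z.unpair.2).toNat
  have hF : Partrec₂ F := by
    have hz1 : Computable fun x : Code × ℕ => x.2.unpair.1.unpair :=
      Computable.unpair.comp (Computable.fst.comp (Computable.unpair.comp Computable.snd))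
    have hz2 : Computable fun x : Code × ℕ => x.2.unpair.2 :=
      Computable.snd.comp (Computable.unpair.comp Computable.snd)
    refine Partrec.map (f := fun x : Code × ℕ =>
      Nat.rfind fun m => Part.some (f ((x.1, x.2.unpair.1.unpair.1, x.2.unpair.2), m)))
      (g := fun (x : Code × ℕ) m => (Bs p s (M.cst J x.1 m) x.2.unpair.1.unpair.1
        (dec x.2.unpair.1.unpair.2) x.2.unpair.2).toNat) ?_ ?_
    · refine Partrec.rfind (p := fun (x : Code × ℕ) m =>
        Part.some (f ((x.1, x.2.unpair.1.unpair.1, x.2.unpair.2), m))) ?_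
      have h1 : Computable fun w : (Code × ℕ) × ℕ =>
          (((w.1.1, w.1.2.unpair.1.unpair.1, w.1.2.unpair.2), w.2) : (Code × ℕ × ℕ) × ℕ) :=
        Computable.pair (Computable.pair (Computable.fst.comp Computable.fst)
          (Computable.pair (Computable.fst.comp (hz1.comp Computable.fst))
            (hz2.comp Computable.fst))) Computable.snd
      have h2 := (hf.comp h1).partrec
      exact h2
    · have h1 : Computable fun w : (Code × ℕ) × ℕ × ℕ × ℕ =>
          ((w.1.1, w.1.2, w.2) : Code × ℕ × ℕ × ℕ × ℕ) :=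
        Computable.pair (Computable.fst.comp Computable.fst) (Computable.pair
          (Computable.snd.comp Computable.fst) Computable.snd)
      have h2 : Computable fun q : (Code × ℕ) × ℕ × ℕ × ℕ =>
          (fun a : Code × ℕ => M.cst J a.1 a.2) q.1 q.2.1 q.2.2.1 q.2.2.2 := by
        have h3 := (BM.c_cst (M := M) hJ).comp h1
        exact h3
      have h3 := c_Bs (c := fun a : Code × ℕ => M.cst J a.1 a.2) hp hs h2
      have h4 : Computable fun w : (Code × ℕ) × ℕ =>
          ((((w.1.1, w.2), w.1.2.unpair.1.unpair.1, dec w.1.2.unpair.1.unpair.2),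
            w.1.2.unpair.2) : ((Code × ℕ) × ℕ × List Bool) × ℕ) :=
        Computable.pair (Computable.pair (Computable.pair (Computable.fst.comp Computable.fst)
          Computable.snd) (Computable.pair (Computable.fst.comp (hz1.comp Computable.fst))
            (dec_computable.comp (Computable.snd.comp (hz1.comp Computable.fst)))))
          (hz2.comp Computable.fst)
      have h5 := c_toNat.comp (h3.comp h4)
      exact h5
  obtain ⟨e, he⟩ := Nat.Partrec.Code.fixed_point₂ hF
  -- the exact costs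
  let c : ℕ → ℕ → ℕ → ℕ := fun u D y =>
    if h : ∃ t, M.Cost emp (J e (Nat.pair u D)) y t then h.choose else 0
  have hc : ∀ u D y t, M.Cost emp (J e (Nat.pair u D)) y t → c u D y = t := by
    intro u D y t ht
    have h : ∃ t, M.Cost emp (J e (Nat.pair u D)) y t := ⟨t, ht⟩
    simp only [c, dif_pos h]
    exact M.cost_unique h.choose_spec ht
  have hval : ∀ m u D y, All (e, u, y) m → (∀ m' < m, ¬ All (e, u, y) m') →
      (Bs p s c u (dec D) y).toNat ∈ eval e (Nat.pair (Nat.pair u D) y) := by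
    intro m u D y hm hmin
    rw [he]
    simp only [F, Nat.unpair_pair]
    refine (Part.mem_map_iff _).2 ⟨m, Nat.mem_rfind.2 ⟨?_, ?_⟩, ?_⟩
    · have h1 : f ((e, u, y), m) = true := (hfA _).2 hm
      simpa using h1.symm
    · intro m' hm'
      have h1 : ¬ f ((e, u, y), m') = true := fun h2 => hmin m' hm' ((hfA _).1 h2)
      have h2 : f ((e, u, y), m') = false := by simpa using h1
      simpa using h2.symm
    · congr 1
      apply Bs_congr
      intro u' D' z h1 h2 h3 h4
      have h5 : M.okc J e m u' D' z :=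
        hm u' (by dsimp only; omega) D' (by dsimp only; omega) z (by dsimp only; omega) h1 h2 h4
      exact (hc _ _ _ _ (BM.cst_cost h5)).symm
  have htot : ∀ n u D y, y - u < n →
      (Bs p s c u (dec D) y).toNat ∈ eval e (Nat.pair (Nat.pair u D) y) := by
    intro n
    induction n with
    | zero => intro u D y h; exact absurd h (Nat.not_lt_zero _)
    | succ n ih =>
      intro u D y hn
      have h1 : ∃ m, All (e, u, y) m := by
        have h2 : ∀ u' D z, ∃ m, u < u' → u' ≤ z → z < y + 1 → M.okc J e m u' D z := by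
          intro u' D z
          by_cases h3 : u < u' ∧ u' ≤ z ∧ z < y + 1
          · have h4 := ih u' D z (by omega)
            rw [← hJ2 emp] at h4
            obtain ⟨t, ht⟩ := M.cost_of_val h4
            obtain ⟨m, hm⟩ := BM.okc_of_cost ht
            exact ⟨m, fun _ _ _ => hm⟩
          · exact ⟨0, fun h4 h5 h6 => absurd ⟨h4, h5, h6⟩ h3⟩
        have h3 : ∀ u' D, ∃ m, ∀ z < y + 1, u < u' → u' ≤ z → M.okc J e m u' D z := by
          intro u' D
          refine BM.unif (P := fun z m => u < u' → u' ≤ z → M.okc J e m u' D z) ?_ _ ?_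
          · intro z m m' hm h4 h5 h6
            exact BM.okc_mono hm (h4 h5 h6)
          · intro z hz
            obtain ⟨m, hm⟩ := h2 u' D z
            exact ⟨m, fun h5 h6 => hm h5 h6 hz⟩
        have h4 : ∀ u', ∃ m, ∀ D < y + 1, ∀ z < y + 1, u < u' → u' ≤ z →
            M.okc J e m u' D z := by
          intro u'
          refine BM.unif (P := fun D m => ∀ z < y + 1, u < u' → u' ≤ z → M.okc J e m u' D z)
            ?_ _ ?_
          · intro z m m' hm h4 z' hz' h5 h6
            exact BM.okc_mono hm (h4 z' hz' h5 h6)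
          · intro D _
            exact h3 u' D
        have h5 : ∃ m, ∀ u' < y + 1, ∀ D < y + 1, ∀ z < y + 1, u < u' → u' ≤ z →
            M.okc J e m u' D z := by
          refine BM.unif (P := fun u' m => ∀ D < y + 1, ∀ z < y + 1, u < u' → u' ≤ z →
            M.okc J e m u' D z) ?_ _ ?_
          · intro u' m m' hm h4 D hD z' hz' h5 h6
            exact BM.okc_mono hm (h4 D hD z' hz' h5 h6)
          · intro u' _
            exact h4 u'
        obtain ⟨m, hm⟩ := h5
        exact ⟨m, fun u' hu' D hD z hz h6 h7 _ => hm u' hu' D hD z hz h6 h7⟩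
      exact hval (Nat.find h1) u D y (Nat.find_spec h1) fun m' hm' => Nat.find_min h1 hm'
  refine ⟨fun u D => J e (Nat.pair u D), c, ?_, ?_, ?_⟩
  · intro u D y
    have h1 := htot (y - u + 1) u D y (Nat.lt_succ_self _)
    rw [← hJ2 emp] at h1
    obtain ⟨t, ht⟩ := M.cost_of_val h1
    rw [hc _ _ _ _ ht]
    exact ht
  · intro u D y
    rw [hJ2]
    exact htot (y - u + 1) u D y (Nat.lt_succ_self _)
  · intro u D
    have h1 : Partrec fun y : ℕ => eval e (Nat.pair (Nat.pair u D) y) :=
      Nat.Partrec.Code.eval_part.comp (Computable.const e)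
        (Primrec₂.natPair.to_comp.comp (Computable.const _) Computable.id)
    have h2 : Computable fun y : ℕ => (Bs p s c u (dec D) y).toNat := by
      refine Partrec.of_eq h1 fun y => ?_
      exact Part.eq_some_iff.2 (htot (y - u + 1) u D y (Nat.lt_succ_self _))
    have h3 : Computable fun y : ℕ => decide ((Bs p s c u (dec D) y).toNat = 1) :=
      (CP.eq h2 (Computable.const 1)).dec
    refine h3.of_eq fun y => ?_
    cases Bs p s c u (dec D) y <;> rfl

end Pool.Agent.V8H40.BL
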