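import Pool.Agent.V8H40.BL.PartI

/-!
# Finite injury and the verification
-/

set_option autoImplicit false

namespace Pool.Agent.V8H40.BL

open Encodable
open Pool.Agent.V8H40.OG (CP)

namespace BM

variable (M : BM) {A : ℕ → Bool} (P : M.Prefs A) (s : ℕ → ℕ) (c : ℕ → ℕ → ℕ → ℕ)

/-- finite injury -/
theorem injury (l : ℕ) : ∃ y0, ∀ l' < l, ∀ y, y0 ≤ y →
    P.p l' (bud s c l' y) (pre (Bs P.p s c 0 []) y) = none := by
  induction l with
  | zero => exact ⟨0, fun l' hl' => absurd hl' (Nat.not_lt_zero _)⟩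
  | succ l ih =>
    obtain ⟨y0, h0⟩ := ih
    obtain ⟨y1, h1⟩ := P.fi l (Bs P.p s c 0 []) (bud s c l) (bud_mono s c l) (max y0 (l + 1)) (by
      intro y hy b hb
      have hy0 : y0 ≤ y := (le_max_left _ _).trans hy
      have hy1 : l + 1 ≤ y := (le_max_right _ _).trans hy
      rw [Bs_eq, if_neg (by simp)]
      apply lead_eq
      refine Or.inl ⟨l, by rw [pre_length]; omega, Nat.zero_le _, ?_, ?_⟩
      · rw [pre_length]
        exact hb
      · intro l' hl' _
        rw [pre_length]
        exact h0 l' hl' y hy0)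
    refine ⟨max y0 y1, fun l' hl' y hy => ?_⟩
    rcases Nat.lt_succ_iff_lt_or_eq.1 hl' with h2 | rfl
    · exact h0 l' h2 y ((le_max_left _ _).trans hy)
    · exact h1 y ((le_max_right _ _).trans hy)

/-- every tail of the construction gives the set, with the right start -/
theorem exists_start (u : ℕ) : ∃ D, Bs P.p s c u (dec D) = Bs P.p s c 0 [] := by
  obtain ⟨y0, h0⟩ := M.injury P s c u
  refine ⟨encode (pre (Bs P.p s c 0 []) y0), ?_⟩
  rw [dec_encode]
  set B := Bs P.p s c 0 [] with hB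
  have key : ∀ y, pre (Bs P.p s c u (pre B y0)) y = pre B y := by
    intro y
    induction y with
    | zero => rfl
    | succ y ih =>
      rw [pre_succ, pre_succ, ih]
      congr 2
      rw [Bs_eq, ih, pre_length]
      split_ifs with h1
      · exact pre_getD B h1
      · push Not at h1
        have h2 : B y = lead P.p s c 0 (pre B y) := by
          rw [hB, Bs_eq, if_neg (by simp)]
        rw [h2]
        apply lead_eq
        rcases lead_rel P.p s c 0 (pre B y) with ⟨l, h3, h4, h5, h6⟩ | ⟨h3, h4⟩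
        · refine Or.inl ⟨l, h3, ?_, h5, fun l' hl' _ => h6 l' hl' (Nat.zero_le _)⟩
          by_contra hlt
          push Not at hlt
          have h7 := h0 l hlt y h1
          rw [pre_length] at h5
          rw [h7] at h5
          cases h5
        · exact Or.inr ⟨h3, fun l hl _ => h4 l hl (Nat.zero_le _)⟩
  funext y
  have h1 := pre_getD (Bs P.p s c u (pre B y0)) (Nat.lt_succ_self y)
  have h2 := pre_getD B (Nat.lt_succ_self y)
  rw [← h1, ← h2, key]

end BM

/-- The main theorem, in terms of approximations. -/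
theorem main (M : BM) : ∃ g : ℕ → ℕ → ℕ, Computable₂ g ∧
    ∀ A : ℕ → Bool, Computable A → ∀ s : ℕ → ℕ, Computable s →
      ∃ B : ℕ → Bool, Computable B ∧
        -- complexity of `B`
        (∀ k, (∀ x, M.Val emp k x (B x).toNat) → ∃ n, ∀ x, n ≤ x → ∀ t, M.Cost emp k x t →
          s x < t) ∧
        -- part (i)
        (∀ i, (∀ x, M.Val B i x (A x).toNat) →
          ∃ S, (∀ x, M.Val emp S x (A x).toNat) ∧
            ∃ x0, ∀ x, x0 ≤ x → ∀ T, M.Cost B i x T → ∀ t, M.Cost emp S x t → t ≤ g x T) ∧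
        (∀ x, Monotone (g x)) ∧
        -- part (ii)
        ∀ k, (∀ x, M.Val A k x (B x).toNat) → ∃ j, (∀ x, M.Val emp j x (B x).toNat) ∧
          ∃ n, ∀ x, n ≤ x → ∀ t t', M.Cost emp j x t → M.Cost A k x t' → t < t' := by
  obtain ⟨g, hg, hgm, hgi⟩ := M.part_i
  refine ⟨g, hg, fun A hA s hs => ?_⟩
  obtain ⟨P⟩ := M.exists_prefs hA
  obtain ⟨j, c, hj1, hj2, hj3⟩ := exists_programs M P.comp hs
  set B := Bs P.p s c 0 [] with hB
  have hBD : Bs P.p s c 0 (dec (encode ([] : List Bool))) = B := by rw [dec_encode]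
  have hBc : Computable B := by
    rw [← hBD]
    exact hj3 0 _
  -- for every level, a program and a stage after which the level is quiet
  have key : ∀ l, ∃ j', (∀ x, M.Val emp j' x (B x).toNat) ∧ ∃ n, ∀ y, n ≤ y →
      P.p l (bud s c l y) (pre B y) = none ∧ y + s y ≤ bud s c l y ∧
        ∀ t, M.Cost emp j' y t → t ≤ bud s c l y := by
    intro l
    obtain ⟨D, hD⟩ := M.exists_start P s c (l + 1)
    obtain ⟨y0, h0⟩ := M.injury P s c (l + 1)
    refine ⟨j (l + 1) D, ?_, max y0 (max (l + 1) D), fun y hy => ⟨?_, ?_, ?_⟩⟩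
    · intro x
      have h1 := hj2 (l + 1) D x
      rw [hD] at h1
      exact h1
    · exact h0 l (Nat.lt_succ_self l) y ((le_max_left _ _).trans hy)
    · have h1 : l < y := ((le_max_left _ _).trans (le_max_right _ _)).trans hy
      have h2 := le_bud s c h1
      omega
    · intro t ht
      rw [M.cost_unique ht (hj1 (l + 1) D y)]
      have h1 : l < y := ((le_max_left _ _).trans (le_max_right _ _)).trans hy
      have h2 : D ≤ y := ((le_max_right _ _).trans (le_max_right _ _)).trans hy
      exact cost_le_bud s c h1 h2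
  refine ⟨B, hBc, ?_, ?_, hgm, ?_⟩
  · intro k hk
    obtain ⟨_, _, n, hn⟩ := key (3 * k + 2)
    refine ⟨n, fun x hx t ht => ?_⟩
    obtain ⟨h1, h2, _⟩ := hn x hx
    have h3 := P.ne k B hk x _ h1
    by_contra h4
    push Not at h4
    exact h3 t (by omega) ht
  · intro i hi
    obtain ⟨j', hj', n, hn⟩ := key (3 * i)
    refine hgi A B i j' hi hj' ⟨n, fun y hy => ?_⟩
    obtain ⟨h1, h2, h3⟩ := hn y hy
    refine ⟨bud s c (3 * i) y, by omega, h3, ?_⟩
    rcases P.rr i _ _ h1 with h4 | h4
    · exfalso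
      obtain ⟨x, _, t, _, _, h5, h6, h7⟩ := h4
      obtain ⟨v, hv⟩ := Option.ne_none_iff_exists'.1 h6
      have h8 : v = (A x).toNat := M.val_unique ⟨y, hv⟩ (hi x)
      rw [hv, h8] at h7
      exact h7 rfl
    · exact h4
  · intro k hk
    obtain ⟨j', hj', n, hn⟩ := key (3 * k + 1)
    refine ⟨j', hj', n, fun x hx t t' ht ht' => ?_⟩
    obtain ⟨h1, _, h3⟩ := hn x hx
    have h4 := P.na k B hk x _ h1
    have h5 := h3 t ht
    by_contra h6
    push Not at h6
    exact h4 t' (by omega) ht'

end Pool.Agent.V8H40.BL
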