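import Pool.Agent.V8H40.BL.Fix

/-!
# The simulation for the first part
-/

set_option autoImplicit false

namespace Pool.Agent.V8H40.BL

open Encodable
open Pool.Agent.V8H40.OG (CP)
open Nat.Partrec (Code)
open Nat.Partrec.Code (eval evaln)

namespace BM

variable (M : BM)

/-- some computation of cost at most `T` has a value -/
def Wv (a : ℕ × ℕ × ℕ) (τ : List Bool) : Prop :=
  (∃ t < a.2.2 + 1, M.d τ a.1 a.2.1 t = some true) ∧ M.U τ a.1 a.2.1 ≠ none

/-- the computations of cost at most `T` are decided -/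
def Dv (a : ℕ × ℕ × ℕ) (τ : List Bool) : Prop :=
  ∀ t < a.2.2 + 1, M.d τ a.1 a.2.1 t ≠ none ∧
    (M.d τ a.1 a.2.1 t = some true → M.U τ a.1 a.2.1 ≠ none)

theorem cp_Wv : CP fun x : (ℕ × ℕ × ℕ) × List Bool => M.Wv x.1 x.2 := by
  have h1 : Computable fun x : (ℕ × ℕ × ℕ) × List Bool => x.1.1 :=
    Computable.fst.comp Computable.fst
  have h2 : Computable fun x : (ℕ × ℕ × ℕ) × List Bool => x.1.2.1 :=
    Computable.fst.comp (Computable.snd.comp Computable.fst)
  have h3 : Computable fun x : (ℕ × ℕ × ℕ) × List Bool => x.1.2.2 :=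
    Computable.snd.comp (Computable.snd.comp Computable.fst)
  refine CP.and (CP.bex (Computable.succ.comp h3) ?_) (CP.not ?_)
  · exact M.cp_d (Computable.snd.comp Computable.fst) (h1.comp Computable.fst)
      (h2.comp Computable.fst) Computable.snd _
  · exact M.cp_U Computable.snd h1 h2 (Computable.const none)

theorem cp_Dv : CP fun x : (ℕ × ℕ × ℕ) × List Bool => M.Dv x.1 x.2 := by
  have h1 : Computable fun x : (ℕ × ℕ × ℕ) × List Bool => x.1.1 :=
    Computable.fst.comp Computable.fst
  have h2 : Computable fun x : (ℕ × ℕ × ℕ) × List Bool => x.1.2.1 :=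
    Computable.fst.comp (Computable.snd.comp Computable.fst)
  have h3 : Computable fun x : (ℕ × ℕ × ℕ) × List Bool => x.1.2.2 :=
    Computable.snd.comp (Computable.snd.comp Computable.fst)
  refine CP.ball (Computable.succ.comp h3) (CP.and (CP.not ?_) (CP.imp ?_ (CP.not ?_)))
  · exact M.cp_d (Computable.snd.comp Computable.fst) (h1.comp Computable.fst)
      (h2.comp Computable.fst) Computable.snd _
  · exact M.cp_d (Computable.snd.comp Computable.fst) (h1.comp Computable.fst)
      (h2.comp Computable.fst) Computable.snd _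
  · exact M.cp_U (Computable.snd.comp Computable.fst) (h1.comp Computable.fst)
      (h2.comp Computable.fst) (Computable.const none)

/-- the value of the computations above a string -/
theorem exists_ev : ∃ ev : (ℕ × ℕ × ℕ) × List Bool → Option ℕ, Computable ev ∧
    (∀ i x T σ v, ev ((i, x, T), σ) = some v → ∃ τ, σ <+: τ ∧
      (∃ t < T + 1, M.d τ i x t = some true) ∧ M.U τ i x = some v) ∧
    ∀ i x T σ τ, σ <+: τ → M.Wv (i, x, T) τ → ev ((i, x, T), σ) ≠ none := by
  obtain ⟨F, hF, hF1, hF2⟩ := ext_search (W := M.Wv) (Dc := M.Dv) M.cp_Wv M.cp_Dv (by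
      rintro ⟨i, x, T⟩
      refine compact ?_ fun X => M.exists_dec X i x T
      intro σ τ h hD t ht
      obtain ⟨h1, h2⟩ := hD t ht
      obtain ⟨b, hb⟩ := Option.ne_none_iff_exists'.1 h1
      have h3 := M.md _ _ _ _ _ _ h hb
      refine ⟨by rw [h3]; simp, fun h4 => ?_⟩
      rw [h3] at h4
      obtain ⟨v, hv⟩ := Option.ne_none_iff_exists'.1 (h2 (hb.trans h4))
      rw [M.mU _ _ _ _ _ h hv]
      simp) (by
      rintro ⟨i, x, T⟩ σ τ h ⟨⟨t, ht, h1⟩, h2⟩
      obtain ⟨v, hv⟩ := Option.ne_none_iff_exists'.1 h2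
      exact ⟨⟨t, ht, M.md _ _ _ _ _ _ h h1⟩, by rw [M.mU _ _ _ _ _ h hv]; simp⟩) (by
      rintro ⟨i, x, T⟩ σ τ h hD ⟨⟨t, ht, h1⟩, h2⟩
      obtain ⟨h4, h5⟩ := hD t ht
      obtain ⟨b, hb⟩ := Option.ne_none_iff_exists'.1 h4
      have h6 := M.md _ _ _ _ _ _ h hb
      dsimp only at h1 h6 hb
      rw [h1] at h6
      have h7 := hb.trans h6.symm
      exact ⟨⟨t, ht, h7⟩, h5 h7⟩)
  refine ⟨fun q => (F q).bind fun τ => M.U τ q.1.1 q.1.2.1, ?_, ?_, ?_⟩
  · refine Computable.option_bind hF ?_
    have h1 : Computable fun x : ((ℕ × ℕ × ℕ) × List Bool) × List Bool => x.1.1 :=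
      Computable.fst.comp Computable.fst
    exact M.cU Computable.snd (Computable.fst.comp h1)
      (Computable.fst.comp (Computable.snd.comp h1))
  · intro i x T σ v h
    obtain ⟨τ, h1, h2⟩ := Option.bind_eq_some_iff.1 h
    obtain ⟨h3, h4, _⟩ := hF2 _ _ _ h1
    exact ⟨τ, h3, h4.1, h2⟩
  · intro i x T σ τ h hW hn
    dsimp only at hn
    cases hF' : F ((i, x, T), σ) with
    | none => exact (hF1 _ _).1 hF' ⟨τ, h, hW⟩
    | some ρ =>
      rw [hF'] at hn
      exact (hF2 _ _ _ hF').2.1.2 hn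

/-- The simulation. -/
theorem part_i : ∃ g : ℕ → ℕ → ℕ, Computable₂ g ∧ (∀ x, Monotone (g x)) ∧
    ∀ (A B : ℕ → Bool) (i j : ℕ), (∀ x, M.Val B i x (A x).toNat) →
      (∀ x, M.Val emp j x (B x).toNat) →
      (∃ Y, ∀ y, Y ≤ y → ∃ Q, y ≤ Q ∧ (∀ t, M.Cost emp j y t → t ≤ Q) ∧
        ∀ τ, pre B y <+: τ → ¬ M.Wit A i Q τ) →
      ∃ S, (∀ x, M.Val emp S x (A x).toNat) ∧
        ∃ x0, ∀ x, x0 ≤ x → ∀ T, M.Cost B i x T → ∀ t, M.Cost emp S x t → t ≤ g x T := by
  classical
  have hemp : Computable emp := Computable.const false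
  have hr := M.rv_computable hemp
  obtain ⟨ev, hev, hev1, hev2⟩ := M.exists_ev
  obtain ⟨J, hJ, hJ2⟩ := M.exists_index
  -- the least argument whose value is too expensive
  have hyy : ∀ q : ℕ × ℕ, ∃ y, (decide (q.2 < y) || decide (M.rv emp q.1 y q.2 = none)) = true :=
    fun q => ⟨q.2 + 1, by simp⟩
  let yy : ℕ × ℕ → ℕ := fun q => Nat.find (hyy q)
  have hyyc : Computable yy := by
    refine Pool.Agent.H166R3.AT.c_find (f := fun (q : ℕ × ℕ) y =>
      (decide (q.2 < y) || decide (M.rv emp q.1 y q.2 = none))) ?_ hyy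
    have h0 : Computable fun x : (ℕ × ℕ) × ℕ => ((x.1.1, x.2, x.1.2) : ℕ × ℕ × ℕ) :=
      Computable.pair (Computable.fst.comp Computable.fst)
        (Computable.pair Computable.snd (Computable.snd.comp Computable.fst))
    have h1 := hr.comp h0
    have h2 : Computable fun x : (ℕ × ℕ) × ℕ => decide (x.1.2 < x.2) :=
      Pool.Agent.H166R3.AT.c_lt (Computable.snd.comp Computable.fst) Computable.snd
    have h3 := (CP.eq h1 (Computable.const (none : Option ℕ))).dec
    exact Pool.Agent.H166R3.AT.c_or h2 h3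
  let ss : ℕ × ℕ → List Bool := fun q =>
    (List.range (yy q)).map fun y => decide (M.rv emp q.1 y q.2 = some 1)
  have hssc : Computable ss := by
    refine c_range_map (n := yy) (f := fun q y => decide (M.rv emp q.1 y q.2 = some 1)) hyyc ?_
    have h0 : Computable fun x : (ℕ × ℕ) × ℕ => ((x.1.1, x.2, x.1.2) : ℕ × ℕ × ℕ) :=
      Computable.pair (Computable.fst.comp Computable.fst)
        (Computable.pair Computable.snd (Computable.snd.comp Computable.fst))
    have h1 := hr.comp h0
    exact (CP.eq h1 (Computable.const (some 1))).dec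
  -- one iteration; the arguments are `((i, j, P), x)` and `T`
  let K : (ℕ × ℕ × ℕ) × ℕ → ℕ → Option ℕ := fun a T =>
    if a.2 < (dec a.1.2.2).length then some ((dec a.1.2.2).getD a.2 false).toNat
    else ev ((a.1.1, a.2, T), ss (a.1.2.1, a.2 + T))
  have hK : Computable₂ K := by
    have hP : Computable fun w : ((ℕ × ℕ × ℕ) × ℕ) × ℕ => dec w.1.1.2.2 :=
      dec_computable.comp (Computable.snd.comp (Computable.snd.comp (Computable.fst.comp
        Computable.fst)))
    have hx : Computable fun w : ((ℕ × ℕ × ℕ) × ℕ) × ℕ => w.1.2 :=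
      Computable.snd.comp Computable.fst
    have h1 : Computable fun w : ((ℕ × ℕ × ℕ) × ℕ) × ℕ => decide (w.1.2 < (dec w.1.1.2.2).length) :=
      Pool.Agent.H166R3.AT.c_lt hx (Computable.list_length.comp hP)
    have h2 : Computable fun w : ((ℕ × ℕ × ℕ) × ℕ) × ℕ =>
        some ((dec w.1.1.2.2).getD w.1.2 false).toNat :=
      Computable.option_some.comp (c_toNat.comp (c_getD hP hx))
    have h3 : Computable fun w : ((ℕ × ℕ × ℕ) × ℕ) × ℕ => ((w.1.1.2.1, w.1.2 + w.2) : ℕ × ℕ) :=
      Computable.pair (Computable.fst.comp (Computable.snd.comp (Computable.fst.comp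
        Computable.fst))) (Primrec.nat_add.to_comp.comp hx Computable.snd)
    have h4 := hssc.comp h3
    have h5 : Computable fun w : ((ℕ × ℕ × ℕ) × ℕ) × ℕ => ((w.1.1.1, w.1.2, w.2) : ℕ × ℕ × ℕ) :=
      Computable.pair (Computable.fst.comp (Computable.fst.comp Computable.fst))
        (Computable.pair hx Computable.snd)
    have h6 := hev.comp (h5.pair h4)
    have h7 := Pool.Agent.R557.CK.c_ite' h1 h2 h6
    exact h7
  -- the program
  have hpr : Partrec fun z : ℕ => Nat.rfindOpt
      (K ((z.unpair.1.unpair.1, z.unpair.1.unpair.2.unpair.1, z.unpair.1.unpair.2.unpair.2),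
        z.unpair.2)) := by
    refine Partrec.rfindOpt ?_
    have hz : Computable fun w : ℕ × ℕ => w.1.unpair := Computable.unpair.comp Computable.fst
    have hz1 : Computable fun w : ℕ × ℕ => w.1.unpair.1.unpair :=
      Computable.unpair.comp (Computable.fst.comp hz)
    have hz2 : Computable fun w : ℕ × ℕ => w.1.unpair.1.unpair.2.unpair :=
      Computable.unpair.comp (Computable.snd.comp hz1)
    have h1 : Computable fun w : ℕ × ℕ =>
        (((w.1.unpair.1.unpair.1, w.1.unpair.1.unpair.2.unpair.1,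
          w.1.unpair.1.unpair.2.unpair.2), w.1.unpair.2) : (ℕ × ℕ × ℕ) × ℕ) :=
      Computable.pair (Computable.pair (Computable.fst.comp hz1) hz2) (Computable.snd.comp hz)
    have h2 := hK.comp h1 Computable.snd
    exact h2
  obtain ⟨e, he⟩ := Nat.Partrec.Code.exists_code.1 (Partrec.nat_iff.1 hpr)
  let S : ℕ × ℕ × ℕ → ℕ := fun q => J e (Nat.pair q.1 (Nat.pair q.2.1 q.2.2))
  have hS : Computable S := by
    have h1 : Computable fun q : ℕ × ℕ × ℕ => Nat.pair q.1 (Nat.pair q.2.1 q.2.2) :=
      Primrec₂.natPair.to_comp.comp Computable.fst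
        (Primrec₂.natPair.to_comp.comp (Computable.fst.comp Computable.snd)
          (Computable.snd.comp Computable.snd))
    exact hJ.comp (Computable.const e) h1
  have hS2 : ∀ q x v, M.Val emp (S q) x v ↔ v ∈ Nat.rfindOpt (K (q, x)) := by
    intro q x v
    simp only [S]
    rw [hJ2, he]
    simp only [Nat.unpair_pair]
  -- its cost, once it is known to stop
  let cond : ((ℕ × ℕ × ℕ) × ℕ) × ℕ → Prop := fun w => ∃ T < w.2 + 1, K w.1 T ≠ none
  have hcond : CP cond := by
    have h0 : Computable fun x : (((ℕ × ℕ × ℕ) × ℕ) × ℕ) × ℕ => K x.1.1 x.2 :=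
      hK.comp (Computable.fst.comp Computable.fst) Computable.snd
    have h1 : CP fun x : (((ℕ × ℕ × ℕ) × ℕ) × ℕ) × ℕ => K x.1.1 x.2 ≠ none :=
      CP.not (CP.eq h0 (Computable.const none))
    have h2 := CP.bex (n := fun w : ((ℕ × ℕ × ℕ) × ℕ) × ℕ => w.2 + 1)
      (p := fun w T => K w.1 T ≠ none) (Computable.succ.comp Computable.snd) h1
    exact h2
  have hstop : ∀ w, cond w → ∃ v, M.Val emp (S w.1.1) w.1.2 v := by
    rintro ⟨⟨q, x⟩, T⟩ ⟨T', _, hT'⟩
    obtain ⟨v, hv⟩ := Option.ne_none_iff_exists'.1 hT'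
    have h1 : (Nat.rfindOpt (K (q, x))).Dom := Nat.rfindOpt_dom.2 ⟨T', v, hv⟩
    exact ⟨_, (hS2 q x _).2 (Part.get_mem h1)⟩
  obtain ⟨G, hG, hG1⟩ := CP.search (α := ((ℕ × ℕ × ℕ) × ℕ) × ℕ) (β := ℕ × ℕ)
    (R := fun w r => (cond w → M.d (pre emp r.2) (S w.1.1) w.1.2 r.1 = some true) ∧
      (¬ cond w → r.1 = 0)) (by
      have h1 := hcond.comp (Computable.fst (α := ((ℕ × ℕ × ℕ) × ℕ) × ℕ) (β := ℕ × ℕ))
      have h2 : CP fun x : (((ℕ × ℕ × ℕ) × ℕ) × ℕ) × ℕ × ℕ =>
          M.d (pre emp x.2.2) (S x.1.1.1) x.1.1.2 x.2.1 = some true := by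
        refine M.cp_d (cp_emp (Computable.snd.comp Computable.snd)) ?_ ?_
          (Computable.fst.comp Computable.snd) _
        · exact hS.comp (Computable.fst.comp (Computable.fst.comp Computable.fst))
        · exact Computable.snd.comp (Computable.fst.comp Computable.fst)
      have h3 : CP fun x : (((ℕ × ℕ × ℕ) × ℕ) × ℕ) × ℕ × ℕ => x.2.1 = 0 :=
        CP.eq (Computable.fst.comp Computable.snd) (Computable.const 0)
      exact (h1.imp h2).and (h1.not.imp h3)) (by
      intro w
      by_cases h : cond w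
      · obtain ⟨v, hv⟩ := hstop w h
        obtain ⟨t, n, hn⟩ := M.cost_of_val hv
        exact ⟨(t, n), fun _ => hn, fun h' => absurd h h'⟩
      · exact ⟨(0, 0), fun h' => absurd h' h, fun _ => rfl⟩)
  let g : ℕ → ℕ → ℕ := fun x T => ∑ i ∈ Finset.range (x + 1), ∑ j ∈ Finset.range (x + 1),
    ∑ P ∈ Finset.range (x + 1), (G (((i, j, P), x), T)).1
  refine ⟨g, ?_, ?_, ?_⟩
  · have hx : Computable fun q : ℕ × ℕ => q.1 + 1 := Computable.succ.comp Computable.fst
    have h3 : Computable₂ fun (w : ((ℕ × ℕ) × ℕ) × ℕ) (P : ℕ) =>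
        (G (((w.1.2, w.2, P), w.1.1.1), w.1.1.2)).1 := by
      have h4 : Computable fun w : (((ℕ × ℕ) × ℕ) × ℕ) × ℕ =>
          ((((w.1.1.2, w.1.2, w.2), w.1.1.1.1), w.1.1.1.2) : ((ℕ × ℕ × ℕ) × ℕ) × ℕ) :=
        Computable.pair (Computable.pair (Computable.pair
          (Computable.snd.comp (Computable.fst.comp Computable.fst))
          (Computable.pair (Computable.snd.comp Computable.fst) Computable.snd))
          (Computable.fst.comp (Computable.fst.comp (Computable.fst.comp Computable.fst))))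
          (Computable.snd.comp (Computable.fst.comp (Computable.fst.comp Computable.fst)))
      have h5 := Computable.fst.comp (hG.comp h4)
      exact h5
    have h2 : Computable₂ fun (w : (ℕ × ℕ) × ℕ) (j : ℕ) =>
        ∑ P ∈ Finset.range (w.1.1 + 1), (G (((w.2, j, P), w.1.1), w.1.2)).1 := by
      have h4 := Pool.Agent.H166R3.AT.c_sum (n := fun w : ((ℕ × ℕ) × ℕ) × ℕ => w.1.1.1 + 1)
        (f := fun w P => (G (((w.1.2, w.2, P), w.1.1.1), w.1.1.2)).1)
        (hx.comp (Computable.fst.comp Computable.fst)) h3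
      exact h4
    have h1 : Computable₂ fun (w : ℕ × ℕ) (i : ℕ) => ∑ j ∈ Finset.range (w.1 + 1),
        ∑ P ∈ Finset.range (w.1 + 1), (G (((i, j, P), w.1), w.2)).1 := by
      have h4 := Pool.Agent.H166R3.AT.c_sum (n := fun w : (ℕ × ℕ) × ℕ => w.1.1 + 1)
        (f := fun w j => ∑ P ∈ Finset.range (w.1.1 + 1), (G (((w.2, j, P), w.1.1), w.1.2)).1)
        (hx.comp Computable.fst) h2
      exact h4
    have h0 := Pool.Agent.H166R3.AT.c_sum (n := fun w : ℕ × ℕ => w.1 + 1)
      (f := fun w i => ∑ j ∈ Finset.range (w.1 + 1),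
        ∑ P ∈ Finset.range (w.1 + 1), (G (((i, j, P), w.1), w.2)).1) hx h1
    exact h0
  · intro x T T' hT
    refine Finset.sum_le_sum fun i _ => Finset.sum_le_sum fun j _ =>
      Finset.sum_le_sum fun P _ => ?_
    by_cases h : cond (((i, j, P), x), T)
    · have h' : cond (((i, j, P), x), T') := by
        obtain ⟨T0, h1, h2⟩ := h
        exact ⟨T0, by dsimp only at h1 ⊢; omega, h2⟩
      have h1 := (hG1 _).1 h
      have h2 := (hG1 _).1 h'
      exact (M.uniq _ _ _ _ _ _ _ h1 h2).le
    · rw [(hG1 _).2 h]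
      exact Nat.zero_le _
  · rintro A B i j hA hB ⟨Y, hY⟩
    choose cj hcj using fun y => M.cost_of_val (hB y)
    -- a bound for the start
    set X0 := Y + ∑ y ∈ Finset.range Y, cj y with hX0
    have hX1 : ∀ y < Y, y ≤ X0 ∧ cj y ≤ X0 := by
      intro y hy
      have h1 : cj y ≤ ∑ y ∈ Finset.range Y, cj y :=
        Finset.single_le_sum (f := cj) (fun _ _ => Nat.zero_le _) (Finset.mem_range.2 hy)
      omega
    set P := encode (pre A X0) with hP
    have hPd : dec P = pre A X0 := dec_encode _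
    -- the strings used
    have hss : ∀ N, X0 ≤ N → ∃ y, Y ≤ y ∧ ss (j, N) = pre B y ∧ (N < y ∨ N < cj y) := by
      intro N hN
      have hspec : (decide (N < yy (j, N)) || decide (M.rv emp j (yy (j, N)) N = none)) = true :=
        Nat.find_spec (hyy (j, N))
      have hmin : ∀ y < yy (j, N), y ≤ N ∧ cj y ≤ N := by
        intro y hy
        have h1 := Nat.find_min (hyy (j, N)) hy
        simp only [Bool.or_eq_true, decide_eq_true_eq, not_or, not_lt] at h1
        refine ⟨h1.1, ?_⟩
        obtain ⟨v, hv⟩ := Option.ne_none_iff_exists'.1 h1.2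
        obtain ⟨⟨t, ht, hc⟩, _⟩ := M.rv_eq_some.1 hv
        rw [M.cost_unique (hcj y) hc]
        omega
      refine ⟨yy (j, N), ?_, ?_, ?_⟩
      · by_contra hlt
        push Not at hlt
        obtain ⟨h1, h2⟩ := hX1 _ hlt
        simp only [Bool.or_eq_true, decide_eq_true_eq] at hspec
        rcases hspec with h3 | h3
        · have : yy (j, N) ≤ N := h1.trans hN
          exact absurd h3 (not_lt.2 this)
        · rw [M.rv_eq_none] at h3
          exact h3 (cj (yy (j, N))) (by omega) (hcj _)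
      · simp only [ss]
        unfold pre
        refine List.map_congr_left fun y hy => ?_
        rw [List.mem_range] at hy
        have h1 : M.rv emp j y N = some (B y).toNat := by
          rw [M.rv_eq_some]
          exact ⟨⟨cj y, by have := (hmin y hy).2; omega, hcj y⟩, hB y⟩
        rw [h1]
        cases B y <;> simp
      · simp only [Bool.or_eq_true, decide_eq_true_eq] at hspec
        rcases hspec with h3 | h3
        · exact Or.inl h3
        · right
          rw [M.rv_eq_none] at h3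
          by_contra h4
          push Not at h4
          exact h3 (cj (yy (j, N))) (by omega) (hcj _)
    -- the values found are right
    have hval : ∀ x T v, K ((i, j, P), x) T = some v → v = (A x).toNat := by
      intro x T v h
      simp only [K] at h
      rw [hPd, pre_length] at h
      split_ifs at h with h1
      · rw [pre_getD A h1] at h
        exact (Option.some.inj h).symm
      · push Not at h1
        obtain ⟨y, hy1, hy2, hy3⟩ := hss (x + T) (by omega)
        rw [hy2] at h
        obtain ⟨τ, h2, ⟨t, ht, h3⟩, h4⟩ := hev1 _ _ _ _ _ h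
        obtain ⟨Q, hQ1, hQ2, hQ3⟩ := hY y hy1
        have hN : x + T ≤ Q := by
          rcases hy3 with h5 | h5
          · omega
          · have := hQ2 _ (hcj y)
            omega
        by_contra hne
        refine hQ3 τ h2 ⟨x, by omega, t, by omega, by omega, h3, by rw [h4]; simp, ?_⟩
        rw [h4]
        intro h5
        exact hne (Option.some.inj h5)
    have hfound : ∀ x T, M.Cost B i x T → K ((i, j, P), x) T ≠ none := by
      intro x T hc
      simp only [K]
      rw [hPd, pre_length]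
      split_ifs with h1
      · simp
      push Not at h1
      obtain ⟨y, hy1, hy2, hy3⟩ := hss (x + T) (by omega)
      rw [hy2]
      obtain ⟨n, hn⟩ := hc
      obtain ⟨m, v, hm⟩ := M.dom1 _ _ _ _ _ hn
      refine hev2 i x T _ (pre B (max y (max n m))) (pre_mono B (le_max_left _ _)) ⟨?_, ?_⟩
      · exact ⟨T, Nat.lt_succ_self _, M.md _ _ _ _ _ _
          (pre_mono B ((le_max_left _ _).trans (le_max_right _ _))) hn⟩
      · dsimp only
        rw [M.mU _ _ _ _ _ (pre_mono B ((le_max_right n m).trans (le_max_right _ _))) hm]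
        simp
    refine ⟨S (i, j, P), ?_, ?_⟩
    · intro x
      obtain ⟨T, hT⟩ := M.cost_of_val (hA x)
      rw [hS2]
      obtain ⟨v, hv⟩ := Option.ne_none_iff_exists'.1 (hfound x T hT)
      have h1 : (Nat.rfindOpt (K ((i, j, P), x))).Dom := Nat.rfindOpt_dom.2 ⟨T, v, hv⟩
      obtain ⟨n, hn⟩ := Nat.rfindOpt_spec (Part.get_mem h1)
      have h2 := hval x n _ hn
      rw [← h2]
      exact Part.get_mem h1
    · refine ⟨i + j + P, fun x hx T hT t ht => ?_⟩
      have h1 : cond (((i, j, P), x), T) := ⟨T, Nat.lt_succ_self _, hfound x T hT⟩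
      have h2 := (hG1 _).1 h1
      have h3 : t = (G (((i, j, P), x), T)).1 := M.cost_unique ht ⟨_, h2⟩
      rw [h3]
      calc (G (((i, j, P), x), T)).1
          ≤ ∑ P ∈ Finset.range (x + 1), (G (((i, j, P), x), T)).1 :=
            Finset.single_le_sum (f := fun P => (G (((i, j, P), x), T)).1)
              (fun _ _ => Nat.zero_le _) (Finset.mem_range.2 (by omega))
        _ ≤ ∑ j ∈ Finset.range (x + 1), ∑ P ∈ Finset.range (x + 1), (G (((i, j, P), x), T)).1 :=
            Finset.single_le_sum (f := fun j => ∑ P ∈ Finset.range (x + 1),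
              (G (((i, j, P), x), T)).1) (fun _ _ => Nat.zero_le _)
              (Finset.mem_range.2 (by omega))
        _ ≤ g x T :=
            Finset.single_le_sum (f := fun i => ∑ j ∈ Finset.range (x + 1),
              ∑ P ∈ Finset.range (x + 1), (G (((i, j, P), x), T)).1)
              (fun _ _ => Nat.zero_le _) (Finset.mem_range.2 (by omega))

end BM

end Pool.Agent.V8H40.BL
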