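import Pool.Agent.V8H40.BL.Core

/-!
# Preferences of the requirements
-/

set_option autoImplicit false

namespace Pool.Agent.V8H40.BL

open Encodable
open Pool.Agent.V8H40.OG (CP)

namespace BM

variable (M : BM) (A : ℕ → Bool)

/-- `σ` is a witness against `φ_k^B = A` for the budget `Q` -/
def Wit (k Q : ℕ) (σ : List Bool) : Prop :=
  ∃ x < Q + 1, ∃ t < Q + 1, x + t ≤ Q ∧ M.d σ k x t = some true ∧ M.U σ k x ≠ none ∧
    M.U σ k x ≠ some (A x).toNat

/-- all computations within the budget are decided -/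
def Dcd (k Q : ℕ) (σ : List Bool) : Prop :=
  ∀ x < Q + 1, ∀ t < Q + 1, M.d σ k x t ≠ none ∧ (M.d σ k x t = some true → M.U σ k x ≠ none)

variable {M A}

theorem Wit.mono {k Q Q' : ℕ} {σ τ : List Bool} (hQ : Q ≤ Q') (h : σ <+: τ)
    (hW : M.Wit A k Q σ) : M.Wit A k Q' τ := by
  obtain ⟨x, hx, t, ht, hxt, h1, h2, h3⟩ := hW
  obtain ⟨v, hv⟩ := Option.ne_none_iff_exists'.1 h2
  have hv' := M.mU _ _ _ _ _ h hv
  refine ⟨x, by omega, t, by omega, by omega, M.md _ _ _ _ _ _ h h1, by rw [hv']; simp, ?_⟩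
  rw [hv']
  rw [hv] at h3
  exact h3

theorem Dcd.mono {k Q : ℕ} {σ τ : List Bool} (h : σ <+: τ) (hD : M.Dcd k Q σ) :
    M.Dcd k Q τ := by
  intro x hx t ht
  obtain ⟨h1, h2⟩ := hD x hx t ht
  obtain ⟨b, hb⟩ := Option.ne_none_iff_exists'.1 h1
  have h3 := M.md _ _ _ _ _ _ h hb
  refine ⟨by rw [h3]; simp, fun h4 => ?_⟩
  rw [h3] at h4
  obtain ⟨v, hv⟩ := Option.ne_none_iff_exists'.1 (h2 (hb.trans h4))
  rw [M.mU _ _ _ _ _ h hv]
  simp

theorem Wit.of_dcd {k Q : ℕ} {σ τ : List Bool} (h : σ <+: τ) (hD : M.Dcd k Q σ)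
    (hW : M.Wit A k Q τ) : M.Wit A k Q σ := by
  obtain ⟨x, hx, t, ht, hxt, h1, h2, h3⟩ := hW
  obtain ⟨h4, h5⟩ := hD x hx t ht
  obtain ⟨b, hb⟩ := Option.ne_none_iff_exists'.1 h4
  have h6 := M.md _ _ _ _ _ _ h hb
  rw [h1] at h6
  have h7 : M.d σ k x t = some true := hb.trans h6.symm
  obtain ⟨v, hv⟩ := Option.ne_none_iff_exists'.1 (h5 h7)
  have h8 := M.mU _ _ _ _ _ h hv
  refine ⟨x, hx, t, ht, hxt, h7, by rw [hv]; simp, ?_⟩
  rw [hv, ← h8]
  exact h3

variable (M A)

theorem exists_dcd (k Q : ℕ) : ∃ N, ∀ τ : List Bool, N ≤ τ.length → M.Dcd k Q τ := by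
  refine compact (fun σ τ h hD => Dcd.mono h hD) fun X => ?_
  have h1 : ∃ n, ∀ x < Q + 1, ∀ t < Q + 1, M.d (pre X n) k x t ≠ none ∧
      (M.d (pre X n) k x t = some true → M.U (pre X n) k x ≠ none) := by
    apply unif
    · intro x n n' hn h t ht
      obtain ⟨h1, h2⟩ := h t ht
      obtain ⟨b, hb⟩ := Option.ne_none_iff_exists'.1 h1
      have h3 := M.md _ _ _ _ _ _ (pre_mono X hn) hb
      refine ⟨by rw [h3]; simp, fun h4 => ?_⟩
      rw [h3] at h4
      obtain ⟨v, hv⟩ := Option.ne_none_iff_exists'.1 (h2 (hb.trans h4))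
      rw [M.mU _ _ _ _ _ (pre_mono X hn) hv]
      simp
    · intro x _
      exact M.exists_dec X k x Q
  exact h1

section comp

variable {α : Type*} [Primcodable α]

theorem cp_d {σ : α → List Bool} {i x t : α → ℕ} (hσ : Computable σ) (hi : Computable i)
    (hx : Computable x) (ht : Computable t) (r : Option Bool) :
    CP fun a => M.d (σ a) (i a) (x a) (t a) = r :=
  CP.eq (M.cd hσ hi hx ht) (Computable.const r)

theorem cp_U {σ : α → List Bool} {i x : α → ℕ} {r : α → Option ℕ} (hσ : Computable σ)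
    (hi : Computable i) (hx : Computable x) (hr : Computable r) :
    CP fun a => M.U (σ a) (i a) (x a) = r a :=
  CP.eq (M.cU hσ hi hx) hr

end comp

theorem cp_wit (hA : Computable A) :
    CP fun x : (ℕ × ℕ) × List Bool => M.Wit A x.1.1 x.1.2 x.2 := by
  have h1 : Computable fun x : (ℕ × ℕ) × List Bool => x.1.2 + 1 :=
    Computable.succ.comp (Computable.snd.comp Computable.fst)
  have hb : Computable fun b : Bool => b.toNat := by
    refine (Computable.cond Computable.id (Computable.const 1) (Computable.const 0)).of_eq ?_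
    intro b
    cases b <;> rfl
  refine CP.bex h1 (CP.bex (h1.comp Computable.fst) ?_)
  have hσ : Computable fun b : (((ℕ × ℕ) × List Bool) × ℕ) × ℕ => b.1.1.2 :=
    Computable.snd.comp (Computable.fst.comp Computable.fst)
  have hk : Computable fun b : (((ℕ × ℕ) × List Bool) × ℕ) × ℕ => b.1.1.1.1 :=
    Computable.fst.comp (Computable.fst.comp (Computable.fst.comp Computable.fst))
  have hQ : Computable fun b : (((ℕ × ℕ) × List Bool) × ℕ) × ℕ => b.1.1.1.2 :=
    Computable.snd.comp (Computable.fst.comp (Computable.fst.comp Computable.fst))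
  have hx : Computable fun b : (((ℕ × ℕ) × List Bool) × ℕ) × ℕ => b.1.2 :=
    Computable.snd.comp Computable.fst
  refine CP.and (CP.le (Primrec.nat_add.to_comp.comp hx Computable.snd) hQ) (CP.and ?_
    (CP.and ?_ ?_))
  · exact M.cp_d hσ hk hx Computable.snd _
  · exact CP.not (M.cp_U hσ hk hx (Computable.const none))
  · exact CP.not (M.cp_U hσ hk hx (Computable.option_some.comp (hb.comp (hA.comp hx))))

theorem cp_dcd : CP fun x : (ℕ × ℕ) × List Bool => M.Dcd x.1.1 x.1.2 x.2 := by
  have h1 : Computable fun x : (ℕ × ℕ) × List Bool => x.1.2 + 1 :=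
    Computable.succ.comp (Computable.snd.comp Computable.fst)
  refine CP.ball h1 (CP.ball (h1.comp Computable.fst) ?_)
  have hσ : Computable fun b : (((ℕ × ℕ) × List Bool) × ℕ) × ℕ => b.1.1.2 :=
    Computable.snd.comp (Computable.fst.comp Computable.fst)
  have hk : Computable fun b : (((ℕ × ℕ) × List Bool) × ℕ) × ℕ => b.1.1.1.1 :=
    Computable.fst.comp (Computable.fst.comp (Computable.fst.comp Computable.fst))
  have hx : Computable fun b : (((ℕ × ℕ) × List Bool) × ℕ) × ℕ => b.1.2 :=
    Computable.snd.comp Computable.fst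
  refine CP.and (CP.not (M.cp_d hσ hk hx Computable.snd _)) (CP.imp ?_ (CP.not ?_))
  · exact M.cp_d hσ hk hx Computable.snd _
  · exact M.cp_U hσ hk hx (Computable.const none)

/-- preferences of the requirements `φ_k^B ≠ A` or no cheap witness -/
theorem exists_prefR (hA : Computable A) : ∃ p : ℕ → ℕ → List Bool → Option Bool,
    Computable (fun q : ℕ × ℕ × List Bool => p q.1 q.2.1 q.2.2) ∧
    (∀ (k : ℕ) (B : ℕ → Bool) (q : ℕ → ℕ), Monotone q → ∀ y0,
      (∀ y, y0 ≤ y → ∀ b, p k (q y) (pre B y) = some b → B y = b) →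
      ∃ y1, ∀ y, y1 ≤ y → p k (q y) (pre B y) = none) ∧
    ∀ k Q σ, p k Q σ = none → M.Wit A k Q σ ∨ ∀ τ, σ <+: τ → ¬ M.Wit A k Q τ := by
  classical
  obtain ⟨F, hF, hF1, hF2⟩ := ext_search (W := fun a : ℕ × ℕ => M.Wit A a.1 a.2)
    (Dc := fun a : ℕ × ℕ => M.Dcd a.1 a.2) (M.cp_wit A hA) M.cp_dcd
    (fun a => M.exists_dcd a.1 a.2) (fun a σ τ h hW => Wit.mono le_rfl h hW)
    (fun a σ τ h hD hW => Wit.of_dcd h hD hW)
  let p : ℕ → ℕ → List Bool → Option Bool := fun k Q σ =>
    if M.Wit A k Q σ then none else (F ((k, Q), σ)).map fun τ => τ.getD σ.length false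
  have hp1 : ∀ k Q σ, p k Q σ = none → M.Wit A k Q σ ∨ ∀ τ, σ <+: τ → ¬ M.Wit A k Q τ := by
    intro k Q σ h
    simp only [p] at h
    split_ifs at h with h1
    · exact Or.inl h1
    · right
      rw [Option.map_eq_none_iff, hF1] at h
      intro τ h2 h3
      exact h ⟨τ, h2, h3⟩
  refine ⟨p, ?_, ?_, hp1⟩
  · have h1 : Computable fun q : ℕ × ℕ × List Bool => (((q.1, q.2.1), q.2.2) :
        (ℕ × ℕ) × List Bool) :=
      Computable.pair (Computable.pair Computable.fst (Computable.fst.comp Computable.snd))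
        (Computable.snd.comp Computable.snd)
    refine Pool.Agent.R557.CK.c_ite' (CP.dec ((M.cp_wit A hA).comp h1)) (Computable.const none) ?_
    refine Computable.option_map (hF.comp h1) ?_
    have hgd : Computable₂ fun (L : List Bool) (i : ℕ) => L.getD i false :=
      (Primrec.list_getD false).to_comp
    exact hgd.comp Computable.snd (Computable.list_length.comp
      (Computable.snd.comp (Computable.snd.comp Computable.fst)))
  · intro k B q hq y0 hB
    -- a witness stays a witness
    by_cases hw : ∃ y, M.Wit A k (q y) (pre B y)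
    · obtain ⟨y1, hy1⟩ := hw
      refine ⟨y1, fun y hy => ?_⟩
      have := Wit.mono (hq hy) (pre_mono B hy) hy1
      simp only [p, if_pos this]
    push Not at hw
    by_contra hno
    push Not at hno
    -- the step
    have hstep : ∀ y, y0 ≤ y → ∀ τ, F ((k, q y), pre B y) = some τ →
        ∃ τ', F ((k, q (y + 1)), pre B (y + 1)) = some τ' ∧ encode τ' ≤ encode τ := by
      intro y hy τ hτ
      obtain ⟨h1, h2, h3⟩ := hF2 _ _ _ hτ
      have h4 : p k (q y) (pre B y) = some (τ.getD y false) := by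
        simp only [p, if_neg (hw y), hτ, Option.map_some, pre_length]
      have h5 := hB y hy _ h4
      have hlen : y < τ.length := by
        by_contra hle
        push Not at hle
        have h6 : τ = pre B y := by
          have := h1.length_le
          rw [pre_length] at this
          exact (h1.eq_of_length (by rw [pre_length]; omega)).symm
        rw [h6] at h2
        exact hw y h2
      have h6 : pre B (y + 1) <+: τ := by
        obtain ⟨ρ, rfl⟩ := h1
        cases ρ with
        | nil => simp [pre_length] at hlen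
        | cons c ρ =>
          have h7 : B y = c := by
            rw [h5]
            simp [List.getD_eq_getElem?_getD, pre_length]
          rw [pre_succ, h7]
          exact ⟨ρ, by simp⟩
      have h7 : M.Wit A k (q (y + 1)) τ := Wit.mono (hq (Nat.le_succ y)) (List.prefix_refl _) h2
      cases hF' : F ((k, q (y + 1)), pre B (y + 1)) with
      | none =>
        rw [hF1] at hF'
        exact absurd ⟨τ, h6, h7⟩ hF'
      | some τ' => exact ⟨τ', rfl, (hF2 _ _ _ hF').2.2 τ h6 h7⟩
    -- a first preference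
    obtain ⟨y1, hy1, hne⟩ := hno y0
    have hF0 : ∃ τ, F ((k, q y1), pre B y1) = some τ := by
      cases h : F ((k, q y1), pre B y1) with
      | none => exact absurd (by simp only [p, if_neg (hw y1), h, Option.map_none]) hne
      | some τ => exact ⟨τ, rfl⟩
    have hall : ∀ y, y1 ≤ y → ∃ τ, F ((k, q y), pre B y) = some τ := by
      intro y hy
      induction y, hy using Nat.le_induction with
      | base => exact hF0
      | succ y hy ih =>
        obtain ⟨τ, hτ⟩ := ih
        obtain ⟨τ', h1, _⟩ := hstep y (hy1.trans hy) τ hτ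
        exact ⟨τ', h1⟩
    -- the minimal code
    let P : ℕ → Prop := fun e => ∃ y, y1 ≤ y ∧ ∃ τ, F ((k, q y), pre B y) = some τ ∧ encode τ = e
    have hP : ∃ e, P e := by
      obtain ⟨τ, hτ⟩ := hF0
      exact ⟨_, y1, le_rfl, τ, hτ, rfl⟩
    obtain ⟨y2, hy2, τ, hτ, he⟩ := Nat.find_spec hP
    have hconst : ∀ y, y2 ≤ y → F ((k, q y), pre B y) = some τ := by
      intro y hy
      induction y, hy using Nat.le_induction with
      | base => exact hτ
      | succ y hy ih =>
        obtain ⟨τ', h1, h2⟩ := hstep y (hy1.trans (hy2.trans hy)) τ ih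
        have h3 : Nat.find hP ≤ encode τ' :=
          Nat.find_min' hP ⟨y + 1, by omega, τ', h1, rfl⟩
        have h4 : encode τ' = encode τ := by omega
        rw [h1, Encodable.encode_injective h4]
    have h1 := hconst (max y2 (τ.length + 1)) (le_max_left _ _)
    have h2 := (hF2 _ _ _ h1).1.length_le
    rw [pre_length] at h2
    have h3 := le_max_right y2 (τ.length + 1)
    omega

end BM

end Pool.Agent.V8H40.BL
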