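import Pool.Agent.V8H40.BL.Pref

/-!
# Preferences of the requirements, second part
-/

set_option autoImplicit false

namespace Pool.Agent.V8H40.BL

open Encodable
open Pool.Agent.V8H40.OG (CP)

theorem c_toNat : Computable fun b : Bool => b.toNat := by
  refine (Computable.cond Computable.id (Computable.const 1) (Computable.const 0)).of_eq ?_
  intro b
  cases b <;> rfl

theorem c_getD {α : Type*} [Primcodable α] {L : α → List Bool} {i : α → ℕ} (hL : Computable L)
    (hi : Computable i) : Computable fun a => (L a).getD (i a) false := by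
  have h1 : Computable₂ fun (L : List Bool) (i : ℕ) => L.getD i false :=
    (Primrec.list_getD false).to_comp
  exact h1.comp hL hi

namespace BM

variable (M : BM)

/-- preferences of the requirements that cheap programs do not compute the set -/
theorem exists_prefN {X : ℕ → Bool} (hX : Computable X) :
    ∃ p : ℕ → ℕ → List Bool → Option Bool,
    Computable (fun q : ℕ × ℕ × List Bool => p q.1 q.2.1 q.2.2) ∧
    (∀ (k : ℕ) (B : ℕ → Bool) (q : ℕ → ℕ), Monotone q → ∀ y0,
      (∀ y, y0 ≤ y → ∀ b, p k (q y) (pre B y) = some b → B y = b) →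
      ∃ y1, ∀ y, y1 ≤ y → p k (q y) (pre B y) = none) ∧
    ∀ (k : ℕ) (B : ℕ → Bool), (∀ x, M.Val X k x (B x).toNat) → ∀ y Q,
      p k Q (pre B y) = none → ∀ t < Q + 1, ¬ M.Cost X k y t := by
  classical
  let C : ℕ × ℕ × List Bool → Prop := fun q => ∃ y < q.2.2.length,
    M.rv X q.1 y q.2.1 ≠ none ∧ M.rv X q.1 y q.2.1 ≠ some (q.2.2.getD y false).toNat
  have hr := M.rv_computable hX
  have hC : CP C := by
    have h0 : Computable fun b : (ℕ × ℕ × List Bool) × ℕ => ((b.1.1, b.2, b.1.2.1) : ℕ × ℕ × ℕ) :=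
      Computable.pair (Computable.fst.comp Computable.fst)
        (Computable.pair Computable.snd
          (Computable.fst.comp (Computable.snd.comp Computable.fst)))
    have h1' := hr.comp h0
    have h1 : Computable fun b : (ℕ × ℕ × List Bool) × ℕ => M.rv X b.1.1 b.2 b.1.2.1 := h1'
    have h20 : Computable fun b : (ℕ × ℕ × List Bool) × ℕ => b.1.2.2 :=
      Computable.snd.comp (Computable.snd.comp Computable.fst)
    have h2 : Computable fun b : (ℕ × ℕ × List Bool) × ℕ => b.1.2.2.getD b.2 false :=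
      c_getD h20 Computable.snd
    have h3 : Computable fun b : (ℕ × ℕ × List Bool) × ℕ => some (b.1.2.2.getD b.2 false).toNat :=
      Computable.option_some.comp (c_toNat.comp h2)
    have h4 : CP fun b : (ℕ × ℕ × List Bool) × ℕ => M.rv X b.1.1 b.2 b.1.2.1 ≠ none :=
      CP.not (CP.eq h1 (Computable.const none))
    have h5 : CP fun b : (ℕ × ℕ × List Bool) × ℕ =>
        M.rv X b.1.1 b.2 b.1.2.1 ≠ some (b.1.2.2.getD b.2 false).toNat := CP.not (CP.eq h1 h3)
    exact CP.bex (n := fun q : ℕ × ℕ × List Bool => q.2.2.length)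
      (p := fun q y => M.rv X q.1 y q.2.1 ≠ none ∧
        M.rv X q.1 y q.2.1 ≠ some (q.2.2.getD y false).toNat)
      (Computable.list_length.comp (Computable.snd.comp Computable.snd)) (h4.and h5)
  let p : ℕ → ℕ → List Bool → Option Bool := fun k Q σ =>
    if C (k, Q, σ) then none else (M.rv X k σ.length Q).map fun v => decide (v ≠ 1)
  refine ⟨p, ?_, ?_, ?_⟩
  · refine Pool.Agent.R557.CK.c_ite' hC.dec (Computable.const none) ?_
    have h0 : Computable fun q : ℕ × ℕ × List Bool => ((q.1, q.2.2.length, q.2.1) : ℕ × ℕ × ℕ) :=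
      Computable.pair Computable.fst (Computable.pair
        (Computable.list_length.comp (Computable.snd.comp Computable.snd))
        (Computable.fst.comp Computable.snd))
    have h1 := hr.comp h0
    refine Computable.option_map h1 ?_
    have h2 : CP fun x : (ℕ × ℕ × List Bool) × ℕ => x.2 ≠ 1 :=
      CP.not (CP.eq Computable.snd (Computable.const 1))
    exact h2.dec
  · intro k B q hq y0 hB
    by_cases h : ∃ y, y0 ≤ y ∧ p k (q y) (pre B y) ≠ none
    · obtain ⟨y, hy, hne⟩ := h
      obtain ⟨b, hb⟩ := Option.ne_none_iff_exists'.1 hne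
      have h1 := hB y hy b hb
      simp only [p] at hb
      split_ifs at hb with h2
      rw [pre_length] at hb
      obtain ⟨v, hv, hvb⟩ := Option.map_eq_some_iff.1 hb
      refine ⟨y + 1, fun y' hy' => ?_⟩
      have h3 : C (k, q y', pre B y') := by
        refine ⟨y, ?_, ?_⟩
        · dsimp only
          rw [pre_length]
          omega
        · dsimp only
          rw [M.rv_mono (hq (by omega : y ≤ y')) hv, pre_getD B (by omega), h1, ← hvb]
          refine ⟨by simp, fun h4 => ?_⟩
          have h5 := Option.some.inj h4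
          by_cases h6 : v = 1
          · rw [h6] at h5; simp at h5
          · rw [decide_eq_true h6] at h5
            exact h6 h5
      simp only [p, if_pos h3]
    · push Not at h
      exact ⟨y0, fun y hy => h y hy⟩
  · intro k B hB y Q hp
    have h1 : ¬ C (k, Q, pre B y) := by
      rintro ⟨y', hy', h2, h3⟩
      dsimp only at hy' h2 h3
      rw [pre_length] at hy'
      obtain ⟨v, hv⟩ := Option.ne_none_iff_exists'.1 h2
      rw [hv, pre_getD B hy'] at h3
      apply h3
      rw [M.val_unique (M.rv_eq_some.1 hv).2 (hB y')]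
    simp only [p, if_neg h1, Option.map_eq_none_iff, pre_length] at hp
    exact M.rv_eq_none.1 hp

/-- the preferences of all requirements -/
structure Prefs (A : ℕ → Bool) where
  p : ℕ → ℕ → List Bool → Option Bool
  comp : Computable fun q : ℕ × ℕ × List Bool => p q.1 q.2.1 q.2.2
  fi : ∀ (l : ℕ) (B : ℕ → Bool) (q : ℕ → ℕ), Monotone q → ∀ y0,
    (∀ y, y0 ≤ y → ∀ b, p l (q y) (pre B y) = some b → B y = b) →
    ∃ y1, ∀ y, y1 ≤ y → p l (q y) (pre B y) = none
  rr : ∀ k Q σ, p (3 * k) Q σ = none → M.Wit A k Q σ ∨ ∀ τ, σ <+: τ → ¬ M.Wit A k Q τ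
  na : ∀ (k : ℕ) (B : ℕ → Bool), (∀ x, M.Val A k x (B x).toNat) → ∀ y Q,
    p (3 * k + 1) Q (pre B y) = none → ∀ t < Q + 1, ¬ M.Cost A k y t
  ne : ∀ (k : ℕ) (B : ℕ → Bool), (∀ x, M.Val emp k x (B x).toNat) → ∀ y Q,
    p (3 * k + 2) Q (pre B y) = none → ∀ t < Q + 1, ¬ M.Cost emp k y t

theorem exists_prefs {A : ℕ → Bool} (hA : Computable A) : Nonempty (M.Prefs A) := by
  obtain ⟨p0, hp0, fi0, rr⟩ := M.exists_prefR A hA
  obtain ⟨p1, hp1, fi1, na⟩ := M.exists_prefN hA
  obtain ⟨p2, hp2, fi2, ne⟩ := M.exists_prefN (X := emp) (Computable.const false)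
  let p : ℕ → ℕ → List Bool → Option Bool := fun l Q σ =>
    if l % 3 = 0 then p0 (l / 3) Q σ else if l % 3 = 1 then p1 (l / 3) Q σ else p2 (l / 3) Q σ
  refine ⟨⟨p, ?_, ?_, ?_, ?_, ?_⟩⟩
  · have h1 : Computable fun q : ℕ × ℕ × List Bool => ((q.1 / 3, q.2.1, q.2.2) :
        ℕ × ℕ × List Bool) :=
      Computable.pair (Primrec.nat_div.to_comp.comp Computable.fst (Computable.const 3))
        Computable.snd
    have h2 : ∀ i : ℕ, Computable fun q : ℕ × ℕ × List Bool => decide (q.1 % 3 = i) := fun i =>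
      (CP.eq (Primrec.nat_mod.to_comp.comp Computable.fst (Computable.const 3))
        (Computable.const i)).dec
    exact Pool.Agent.R557.CK.c_ite' (h2 0) (hp0.comp h1)
      (Pool.Agent.R557.CK.c_ite' (h2 1) (hp1.comp h1) (hp2.comp h1))
  · intro l B q hq y0
    simp only [p]
    split_ifs
    · exact fi0 (l / 3) B q hq y0
    · exact fi1 (l / 3) B q hq y0
    · exact fi2 (l / 3) B q hq y0
  · intro k Q σ
    have h1 : 3 * k % 3 = 0 := by omega
    have h2 : 3 * k / 3 = k := by omega
    simp only [p, h1, h2, if_true]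
    exact rr k Q σ
  · intro k B hB y Q
    have h1 : (3 * k + 1) % 3 = 1 := by omega
    have h2 : (3 * k + 1) / 3 = k := by omega
    simp only [p, h1, h2, if_true, one_ne_zero, if_false]
    exact na k B hB y Q
  · intro k B hB y Q
    have h1 : (3 * k + 2) % 3 = 2 := by omega
    have h2 : (3 * k + 2) / 3 = k := by omega
    have h3 : (2 : ℕ) ≠ 0 := by omega
    have h4 : (2 : ℕ) ≠ 1 := by omega
    simp only [p, h1, h2, if_neg h3, if_neg h4]
    exact ne k B hB y Q

end BM

end Pool.Agent.V8H40.BL
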